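import Pool.Agent.H1.LT.Two

/-!
# How often a threshold of a linear form depends on one item
-/

set_option autoImplicit false

namespace Pool.Agent.H1.HL

open Finset Pool.Agent.H1.LT

/-- Several short intervals. -/
theorem lo_many {κ : Type*} [Fintype κ] [DecidableEq κ] (a : κ → ℝ) {δ : ℝ} (hδ : 0 < δ)
    (ha : ∀ i, δ ≤ |a i|) (L : ℝ) (M : ℕ) :
    (univ.filter fun e : κ → Bool => L ≤ ∑ i, (if e i then a i else 0) ∧
      ∑ i, (if e i then a i else 0) < L + M * δ).card ≤
      M * (Fintype.card κ).choose (Fintype.card κ / 2) := by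
  classical
  induction M with
  | zero =>
    rw [zero_mul, Nat.le_zero, Finset.card_eq_zero, Finset.filter_eq_empty_iff]
    rintro e _ ⟨h1, h2⟩
    simp at h2
    linarith
  | succ M ih =>
    have h := lo_fun a hδ ha (L + M * δ)
    rw [add_mul, one_mul]
    refine le_trans ?_ (add_le_add ih h)
    refine le_trans (Finset.card_le_card ?_) (Finset.card_union_le _ _)
    intro e he
    rw [Finset.mem_filter] at he
    rw [Finset.mem_union, Finset.mem_filter, Finset.mem_filter]
    by_cases hc : ∑ i, (if e i then a i else 0) < L + M * δ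
    · exact Or.inl ⟨Finset.mem_univ _, he.2.1, hc⟩
    · push Not at hc
      refine Or.inr ⟨Finset.mem_univ _, hc, ?_⟩
      have := he.2.2
      push_cast at this
      linarith

theorem sum_inv_sqrt (n : ℕ) : ∑ r ∈ range n, 1 / √((r : ℝ) + 1) ≤ 2 * √n := by
  induction n with
  | zero => simp
  | succ k ih =>
    rw [Finset.sum_range_succ]
    have hs : (0 : ℝ) < √((k : ℝ) + 1) := Real.sqrt_pos.mpr (by positivity)
    have hs2 : √((k : ℝ) + 1) * √((k : ℝ) + 1) = k + 1 := Real.mul_self_sqrt (by positivity)
    have hk2 : √(k : ℝ) * √(k : ℝ) = k := Real.mul_self_sqrt (by positivity)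
    have hk : √(k : ℝ) ≤ √((k : ℝ) + 1) := Real.sqrt_le_sqrt (by linarith)
    have h2 : 1 / √((k : ℝ) + 1) ≤ 2 * √((k : ℝ) + 1) - 2 * √k := by
      rw [div_le_iff₀ hs]
      nlinarith [Real.sqrt_nonneg (k : ℝ)]
    push_cast
    linarith

set_option linter.unusedSectionVars false

variable {N : ℕ} {ι : Type*} [Fintype ι] [DecidableEq ι]

/-- A linear form in the bits of the items. -/
def form (w : Fin N → ι → ℝ) (z : Fin N → ι → Bool) : ℝ :=
  ∑ i, ∑ j, (if z i j then w i j else 0)

/-- The threshold depends on the item `t` when the others are as in `z`. -/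
def Active (w : Fin N → ι → ℝ) (τ : ℝ) (t : Fin N) (z : Fin N → ι → Bool) : Prop :=
  ∃ u u', τ < form w (Function.update z t u) ∧ ¬ τ < form w (Function.update z t u')

theorem form_update (w : Fin N → ι → ℝ) (t : Fin N) (z : Fin N → ι → Bool) (u : ι → Bool) :
    form w (Function.update z t u) = (∑ j, (if u j then w t j else 0)) +
      ∑ i ∈ univ.erase t, ∑ j, (if z i j then w i j else 0) := by
  unfold form
  rw [← Finset.add_sum_erase _ _ (Finset.mem_univ t), Function.update_self]
  congr 1
  refine Finset.sum_congr rfl fun i hi => ?_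
  rw [Function.update_of_ne (Finset.ne_of_mem_erase hi)]

/-- resampling -/
def opA (U : Finset (Fin N)) (jm : Fin N → ι) (z : Fin N → ι → Bool) (e : U → Bool) :
    Fin N → ι → Bool :=
  fun i j => if h : i ∈ U ∧ j = jm i then e ⟨i, h.1⟩ else z i j

theorem sum_opA (U : Finset (Fin N)) (jm : Fin N → ι) (w : Fin N → ι → ℝ) (t : Fin N)
    (htU : t ∉ U) (z : Fin N → ι → Bool) (e : U → Bool) :
    ∑ i ∈ univ.erase t, ∑ j, (if opA U jm z e i j then w i j else 0) =
      (∑ i ∈ univ.erase t, ∑ j, (if i ∈ U ∧ j = jm i then 0 else if z i j then w i j else 0)) +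
        ∑ i : U, (if e i then w i (jm i) else 0) := by
  classical
  have h : ∀ i, ∑ j, (if opA U jm z e i j then w i j else 0) =
      (∑ j, (if i ∈ U ∧ j = jm i then 0 else if z i j then w i j else 0)) +
      (if h : i ∈ U then (if e ⟨i, h⟩ then w i (jm i) else 0) else 0) := by
    intro i
    by_cases hi : i ∈ U
    · rw [dif_pos hi]
      have : ∀ j, (if opA U jm z e i j then w i j else 0) =
          (if i ∈ U ∧ j = jm i then 0 else if z i j then w i j else 0) +
          (if j = jm i then (if e ⟨i, hi⟩ then w i (jm i) else 0) else 0) := by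
        intro j
        by_cases hj : j = jm i
        · subst hj
          simp [opA, hi]
        · simp [opA, hj]
      rw [Finset.sum_congr rfl fun j _ => this j, Finset.sum_add_distrib,
        Finset.sum_ite_eq' univ (jm i)]
      simp
    · rw [dif_neg hi, add_zero]
      refine Finset.sum_congr rfl fun j _ => ?_
      simp [opA, hi]
  rw [Finset.sum_congr rfl fun i _ => h i, Finset.sum_add_distrib]
  congr 1
  rw [Finset.univ_eq_attach]
  have h2 : ∑ i ∈ U.attach, (if e i then w i (jm i) else 0) =
      ∑ i ∈ U.attach, (fun i : Fin N => if h : i ∈ U then (if e ⟨i, h⟩ then w i (jm i) else 0)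
        else 0) i := by
    refine Finset.sum_congr rfl fun i _ => ?_
    simp only
    rw [dif_pos i.2]
  rw [h2, Finset.sum_attach U fun i : Fin N => if h : i ∈ U then
    (if e ⟨i, h⟩ then w i (jm i) else 0) else 0]
  symm
  refine Finset.sum_subset ?_ ?_
  · intro i hi
    rw [Finset.mem_erase]
    exact ⟨fun h => htU (h ▸ hi), Finset.mem_univ _⟩
  · intro i _ hi
    rw [dif_neg hi]

theorem card_active (w : Fin N → ι → ℝ) (τ : ℝ) (t : Fin N) (jm : Fin N → ι)
    (hjm : ∀ i j, |w i j| ≤ |w i (jm i)|) (B : Finset (Fin N → ι → Bool))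
    (hB : ∀ z ∈ B, Active w τ t z) :
    (B.card : ℝ) * √((univ.filter fun i => |w t (jm t)| ≤ |w i (jm i)|).card : ℝ) ≤
      (Fintype.card ι + 1) * Fintype.card (Fin N → ι → Bool) := by
  classical
  obtain ⟨U, hU⟩ : ∃ U, U = (univ.filter fun i => |w t (jm t)| ≤ |w i (jm i)|).erase t := ⟨_, rfl⟩
  have htU : t ∉ U := by rw [hU]; exact Finset.notMem_erase _ _
  have hUc : U.card + 1 = (univ.filter fun i => |w t (jm t)| ≤ |w i (jm i)|).card := by
    rw [hU]
    exact Finset.card_erase_add_one (by simp)
  have hUm : ∀ i ∈ U, |w t (jm t)| ≤ |w i (jm i)| := by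
    intro i hi
    rw [hU, Finset.mem_erase, Finset.mem_filter] at hi
    exact hi.2.2
  rw [← hUc]
  by_cases h0 : |w t (jm t)| ≤ 0
  · -- no active samples
    have hw : ∀ j, w t j = 0 := fun j => abs_nonpos_iff.mp ((hjm t j).trans h0)
    have : B = ∅ := by
      rw [Finset.eq_empty_iff_forall_notMem]
      intro z hz
      obtain ⟨u, u', h1, h2⟩ := hB z hz
      rw [form_update] at h1 h2
      simp only [hw, ite_self, Finset.sum_const_zero, zero_add] at h1 h2
      exact h2 h1
    rw [this, Finset.card_empty, Nat.cast_zero, zero_mul]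
    positivity
  · push Not at h0
    have key := resample (W := Fin N → ι → Bool) (X := U → Bool) (opA U jm)
      (fun z i => z i (jm i)) (by
        intro z e
        funext i
        simp [opA]) (by
        intro z
        funext i j
        simp only [opA]
        split_ifs with h
        · rw [h.2]
        · rfl) (by
        intro z e e'
        funext i j
        simp only [opA]
        split_ifs with h
        · rfl
        · rfl) B ((Fintype.card ι + 1) * (U.card).choose (U.card / 2)) (by
        intro z
        obtain ⟨s₀, hs₀⟩ : ∃ s₀ : ℝ, s₀ = ∑ i ∈ univ.erase t, ∑ j,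
          (if i ∈ U ∧ j = jm i then 0 else if z i j then w i j else 0) := ⟨_, rfl⟩
        obtain ⟨hi, hhi⟩ : ∃ hi : ℝ, hi = ∑ j, max (w t j) 0 := ⟨_, rfl⟩
        obtain ⟨lo, hlo⟩ : ∃ lo : ℝ, lo = ∑ j, min (w t j) 0 := ⟨_, rfl⟩
        have hr : ∀ u : ι → Bool, lo ≤ ∑ j, (if u j then w t j else 0) ∧
            ∑ j, (if u j then w t j else 0) ≤ hi := by
          intro u
          rw [hlo, hhi]
          refine ⟨Finset.sum_le_sum fun j _ => ?_, Finset.sum_le_sum fun j _ => ?_⟩
          · split_ifs
            · exact min_le_left _ _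
            · exact min_le_right _ _
          · split_ifs
            · exact le_max_left _ _
            · exact le_max_right _ _
        have hlen : hi - lo ≤ Fintype.card ι * |w t (jm t)| := by
          rw [hhi, hlo, ← Finset.sum_sub_distrib]
          calc ∑ j, (max (w t j) 0 - min (w t j) 0) ≤ ∑ _j : ι, |w t (jm t)| := by
                refine Finset.sum_le_sum fun j _ => ?_
                rw [max_sub_min_eq_abs, zero_sub, abs_neg]
                exact hjm t j
            _ = _ := by rw [Finset.sum_const, Finset.card_univ, nsmul_eq_mul]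
        have h := lo_many (κ := U) (fun i => w i (jm i)) h0 (fun i => hUm i i.2)
          (τ - hi - s₀) (Fintype.card ι + 1)
        rw [Fintype.card_coe] at h
        refine le_trans (Finset.card_le_card ?_) h
        intro e he
        rw [Finset.mem_filter] at he ⊢
        refine ⟨Finset.mem_univ _, ?_⟩
        obtain ⟨u, u', h1, h2⟩ := hB _ he.2
        rw [form_update, sum_opA U jm w t htU, ← hs₀] at h1 h2
        have h3 := (hr u).2
        have h4 := (hr u').1
        push_cast
        push Not at h2
        constructor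
        · linarith
        · nlinarith)
    rw [Fintype.card_fun, Fintype.card_bool, Fintype.card_coe] at key
    have key' : (B.card : ℝ) * 2 ^ U.card ≤ (Fintype.card ι + 1) *
        ((U.card).choose (U.card / 2) : ℕ) * Fintype.card (Fin N → ι → Bool) := by
      exact_mod_cast key
    have hch := choose_half_le U.card
    have hs : (0 : ℝ) < √((U.card : ℝ) + 1) := Real.sqrt_pos.mpr (by positivity)
    rw [le_div_iff₀ hs] at hch
    have h2u : (0 : ℝ) < 2 ^ U.card := by positivity
    push_cast
    have h5 : (B.card : ℝ) * √((U.card : ℝ) + 1) * 2 ^ U.card ≤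
        ((Fintype.card ι + 1) * Fintype.card (Fin N → ι → Bool)) * 2 ^ U.card := by
      calc (B.card : ℝ) * √((U.card : ℝ) + 1) * 2 ^ U.card
          = ((B.card : ℝ) * 2 ^ U.card) * √((U.card : ℝ) + 1) := by ring
        _ ≤ ((Fintype.card ι + 1) * ((U.card).choose (U.card / 2) : ℕ) *
            Fintype.card (Fin N → ι → Bool)) * √((U.card : ℝ) + 1) :=
            mul_le_mul_of_nonneg_right key' hs.le
        _ = ((Fintype.card ι + 1) * Fintype.card (Fin N → ι → Bool)) *
            (((U.card).choose (U.card / 2) : ℕ) * √((U.card : ℝ) + 1)) := by ring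
        _ ≤ _ := mul_le_mul_of_nonneg_left hch (by positivity)
    have h6 := le_of_mul_le_mul_right h5 h2u
    push_cast at h6
    exact h6

/-- **Activity.** -/
theorem sum_active [Nonempty ι] (w : Fin N → ι → ℝ) (τ : ℝ) (T : Finset (Fin N))
    (hT : ∀ i, i ∉ T → ∀ j, w i j = 0) (B : Fin N → Finset (Fin N → ι → Bool))
    (hB : ∀ t, ∀ z ∈ B t, Active w τ t z) :
    ∑ t, ((B t).card : ℝ) ≤
      (Fintype.card ι + 1) * (2 * √T.card) * Fintype.card (Fin N → ι → Bool) := by
  classical
  have hex : ∀ i, ∃ j, ∀ j', |w i j'| ≤ |w i j| := fun i => by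
    obtain ⟨j, -, hj⟩ := Finset.exists_max_image univ (fun j => |w i j|) Finset.univ_nonempty
    exact ⟨j, fun j' => hj j' (Finset.mem_univ _)⟩
  choose jm hjm using hex
  obtain ⟨φ, hφ⟩ : ∃ φ : ℕ → ℝ, ∀ n, φ n = if n ≤ T.card then 1 / √(max n 1 : ℕ) else 0 :=
    ⟨_, fun _ => rfl⟩
  have hφa : Antitone φ := by
    intro a b hab
    rw [hφ, hφ]
    by_cases hb : b ≤ T.card
    · rw [if_pos hb, if_pos (hab.trans hb)]
      refine one_div_le_one_div_of_le (Real.sqrt_pos.mpr ?_) (Real.sqrt_le_sqrt ?_)
      · exact_mod_cast (by omega : 0 < max a 1)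
      · exact_mod_cast (by omega : max a 1 ≤ max b 1)
    · rw [if_neg hb]
      split_ifs <;> positivity
  have hone : ∀ t, ((B t).card : ℝ) ≤ φ (univ.filter fun i => |w t (jm t)| ≤ |w i (jm i)|).card *
      ((Fintype.card ι + 1) * Fintype.card (Fin N → ι → Bool)) := by
    intro t
    obtain ⟨f, hf⟩ : ∃ f, f = (univ.filter fun i => |w t (jm t)| ≤ |w i (jm i)|).card := ⟨_, rfl⟩
    have h := card_active w τ t jm hjm (B t) (hB t)
    rw [← hf] at h ⊢
    have hf1 : 1 ≤ f := by
      rw [hf, Nat.one_le_iff_ne_zero, ← Nat.pos_iff_ne_zero, Finset.card_pos]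
      exact ⟨t, by simp⟩
    by_cases hft : f ≤ T.card
    · rw [hφ, if_pos hft, Nat.max_eq_left hf1]
      have hs : (0 : ℝ) < √(f : ℝ) := Real.sqrt_pos.mpr (by exact_mod_cast hf1)
      rw [one_div, inv_mul_eq_div, le_div_iff₀ hs]
      exact h
    · -- the item is not read
      have hw0 : ∀ j, w t j = 0 := by
        by_contra hcon
        push Not at hcon
        obtain ⟨j, hj⟩ := hcon
        apply hft
        rw [hf]
        refine Finset.card_le_card fun i hi => ?_
        rw [Finset.mem_filter] at hi
        by_contra hiT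
        have h1 := hi.2
        rw [hT i hiT, abs_zero] at h1
        have h2 := (hjm t j).trans h1
        exact hj (abs_nonpos_iff.mp h2)
      have hBe : B t = ∅ := by
        rw [Finset.eq_empty_iff_forall_notMem]
        intro z hz
        obtain ⟨u, u', h1, h2⟩ := hB t z hz
        rw [form_update] at h1 h2
        simp only [hw0, ite_self, Finset.sum_const_zero, zero_add] at h1 h2
        exact h2 h1
      rw [hBe, Finset.card_empty, Nat.cast_zero, hφ, if_neg hft, zero_mul]
  have hTN : T.card ≤ N := by
    refine (Finset.card_le_univ _).trans ?_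
    rw [Fintype.card_fin]
  have hsum : ∑ t, φ (univ.filter fun i => |w t (jm t)| ≤ |w i (jm i)|).card ≤ 2 * √T.card := by
    refine (rank_sum (fun i => |w i (jm i)|) φ hφa).trans ?_
    refine le_trans ?_ (sum_inv_sqrt T.card)
    rw [← Finset.sum_subset (Finset.range_subset_range.mpr hTN)]
    · refine Finset.sum_le_sum fun r hr => ?_
      rw [Finset.mem_range] at hr
      rw [hφ, if_pos (by omega), Nat.max_eq_left (by omega)]
      push_cast
      exact le_rfl
    · intro r _ hr
      rw [Finset.mem_range, not_lt] at hr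
      rw [hφ, if_neg (by omega)]
  calc ∑ t, ((B t).card : ℝ) ≤ ∑ t, φ (univ.filter fun i => |w t (jm t)| ≤ |w i (jm i)|).card *
        ((Fintype.card ι + 1) * Fintype.card (Fin N → ι → Bool)) :=
        Finset.sum_le_sum fun t _ => hone t
    _ = (∑ t, φ (univ.filter fun i => |w t (jm t)| ≤ |w i (jm i)|).card) *
        ((Fintype.card ι + 1) * Fintype.card (Fin N → ι → Bool)) := by rw [Finset.sum_mul]
    _ ≤ (2 * √T.card) * ((Fintype.card ι + 1) * Fintype.card (Fin N → ι → Bool)) :=
        mul_le_mul_of_nonneg_right hsum (by positivity)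
    _ = _ := by ring

end Pool.Agent.H1.HL
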