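import Mathlib

/-!
# Counting threshold functions of given real functions
-/

set_option autoImplicit false

namespace Pool.Agent.H1.HL

open Finset

variable {Z : Type*} [Fintype Z]

open Classical in
/-- The threshold functions of a real function, numbered by the number of ones. -/
noncomputable def thr (y : Z → ℝ) (n : Fin (Fintype.card Z + 1)) (u : Z) : Bool :=
  if h : ∃ σ : ℝ, (univ.filter fun u => σ < y u).card = n then decide (h.choose < y u) else false

theorem exists_thr (y : Z → ℝ) (σ : ℝ) : ∃ n, ∀ u, thr y n u = decide (σ < y u) := by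
  classical
  have hlt : (univ.filter fun u => σ < y u).card < Fintype.card Z + 1 :=
    Nat.lt_succ_of_le (Finset.card_le_univ _)
  refine ⟨⟨_, hlt⟩, fun u => ?_⟩
  have h : ∃ σ' : ℝ, (univ.filter fun u => σ' < y u).card =
      ((⟨_, hlt⟩ : Fin (Fintype.card Z + 1)) : ℕ) := ⟨σ, rfl⟩
  unfold thr
  rw [dif_pos h]
  have h1 : (univ.filter fun u => h.choose < y u).card = (univ.filter fun u => σ < y u).card :=
    h.choose_spec
  have h2 : (univ.filter fun u => h.choose < y u) = (univ.filter fun u => σ < y u) := by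
    rcases le_total h.choose σ with hc | hc
    · symm
      refine Finset.eq_of_subset_of_card_le ?_ h1.le
      intro v hv
      rw [Finset.mem_filter] at hv ⊢
      exact ⟨hv.1, lt_of_le_of_lt hc hv.2⟩
    · refine Finset.eq_of_subset_of_card_le ?_ h1.ge
      intro v hv
      rw [Finset.mem_filter] at hv ⊢
      exact ⟨hv.1, lt_of_le_of_lt hc hv.2⟩
  have h3 := Finset.ext_iff.mp h2 u
  simp only [Finset.mem_filter, Finset.mem_univ, true_and] at h3
  simp only [h3]

/-- The functions of one item given by the code of a network: `K` units, each with a number. -/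
noncomputable def net {G : Type*} (y : G → Z → ℝ) (c : G → ℝ) (ψ : Z → ℝ) {K : ℕ}
    (x : (Fin K → Option G) × (Fin K → Fin (Fintype.card Z + 1)) × Fin (Fintype.card Z + 1)) :
    Z → Bool :=
  thr (fun u => ψ u + ∑ a, (match x.1 a with
    | some g => if thr (y g) (x.2.1 a) u then c g else 0
    | none => 0)) x.2.2

theorem exists_net {G : Type*} [DecidableEq G] (y : G → Z → ℝ) (c : G → ℝ) (ψ : Z → ℝ) {K : ℕ}
    (A : Finset G) (hA : A.card ≤ K) (σ : G → ℝ) (μ : ℝ) :
    ∃ x : (Fin K → Option G) × (Fin K → Fin (Fintype.card Z + 1)) × Fin (Fintype.card Z + 1),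
      ∀ u, net y c ψ x u = decide (μ < ψ u + ∑ g ∈ A, (if σ g < y g u then c g else 0)) := by
  classical
  choose n hn using fun g => exists_thr (y g) (σ g)
  -- a numbering of the active units
  obtain ⟨e⟩ : Nonempty (A ↪ Fin K) := by
    refine Function.Embedding.nonempty_of_card_le ?_
    rw [Fintype.card_coe, Fintype.card_fin]
    exact hA
  obtain ⟨f, hf⟩ : ∃ f : Fin K → Option G, ∀ a, f a =
    if h : ∃ g : A, e g = a then some (h.choose : G) else none := ⟨_, fun _ => rfl⟩
  have hfe : ∀ g : A, f (e g) = some (g : G) := by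
    intro g
    have h : ∃ g' : A, e g' = e g := ⟨g, rfl⟩
    rw [hf, dif_pos h, e.injective h.choose_spec]
  have hfn : ∀ a, (∀ g : A, e g ≠ a) → f a = none := by
    intro a ha
    rw [hf, dif_neg]
    rintro ⟨g, hg⟩
    exact ha g hg
  obtain ⟨m, hm⟩ : ∃ m : Fin K → Fin (Fintype.card Z + 1), ∀ a, m a =
    match f a with
    | some g => n g
    | none => 0 := ⟨_, fun _ => rfl⟩
  obtain ⟨q, hq⟩ := exists_thr (fun u => ψ u + ∑ g ∈ A, (if σ g < y g u then c g else 0)) μ
  refine ⟨(f, m, q), fun u => ?_⟩
  rw [← hq u]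
  unfold net
  congr 1
  funext v
  congr 1
  simp only
  rw [← Finset.sum_attach A]
  symm
  refine Finset.sum_of_injOn (fun g => e g) ?_ ?_ ?_ ?_
  · exact e.injective.injOn
  · intro g _
    simp
  · intro a _ ha
    have : f a = none := by
      refine hfn a fun g hg => ha ?_
      rw [Set.mem_image]
      exact ⟨g, by simp, hg⟩
    rw [this]
  · intro g _
    have h1 : m (e g) = n g := by
      rw [hm, hfe g]
    rw [hfe g]
    simp only [h1, hn, decide_eq_true_eq]

end Pool.Agent.H1.HL
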