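import Mathlib

/-!
# Random and planted samples
-/

set_option autoImplicit false
set_option linter.unusedSectionVars false

namespace Pool.Agent.H1.HL

open Finset

variable {N : ℕ} {Z : Type*} [Fintype Z] [DecidableEq Z] [Nonempty Z]

/-- The fraction of ones. -/
noncomputable def mean (g : Z → Bool) : ℝ := (∑ u, (if g u then (1 : ℝ) else 0)) / Fintype.card Z

theorem mean_mem (g : Z → Bool) : 0 ≤ mean g ∧ mean g ≤ 1 := by
  have hZ : (0 : ℝ) < Fintype.card Z := by exact_mod_cast Fintype.card_pos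
  unfold mean
  refine ⟨by positivity, ?_⟩
  rw [div_le_one hZ]
  calc ∑ u, (if g u then (1 : ℝ) else 0) ≤ ∑ _u : Z, (1 : ℝ) :=
        Finset.sum_le_sum fun u _ => by split_ifs <;> norm_num
    _ = _ := by simp

theorem mgf_one (g : Z → Bool) (π : Z ≃ Z) {l : ℝ} (hl : 0 ≤ l) (hl1 : l ≤ 1) :
    ∑ u, Real.exp (l * ((if g (π u) then (1 : ℝ) else 0) - mean g)) ≤
      Fintype.card Z * Real.exp (l ^ 2 / 4) := by
  have hZ : (0 : ℝ) < Fintype.card Z := by exact_mod_cast Fintype.card_pos
  obtain ⟨hm0, hm1⟩ := mean_mem g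
  have e0 : ∑ u, (if g (π u) then (1 : ℝ) else 0) = Fintype.card Z * mean g := by
    rw [Equiv.sum_comp π fun u => if g u then (1 : ℝ) else 0]
    unfold mean
    field_simp
  have hpt : ∀ u, Real.exp (l * ((if g (π u) then (1 : ℝ) else 0) - mean g)) ≤
      1 + l * ((if g (π u) then (1 : ℝ) else 0) - mean g) +
        l ^ 2 * ((if g (π u) then (1 : ℝ) else 0) * (1 - 2 * mean g) + mean g ^ 2) := by
    intro u
    obtain ⟨x, hx⟩ : ∃ x : ℝ, x = (if g (π u) then (1 : ℝ) else 0) := ⟨_, rfl⟩
    rw [← hx]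
    have hx01 : x = 0 ∨ x = 1 := by
      rw [hx]
      split_ifs
      · exact Or.inr rfl
      · exact Or.inl rfl
    have hxx : x * x = x := by rcases hx01 with h | h <;> rw [h] <;> norm_num
    have hab : |x - mean g| ≤ 1 := by
      rw [abs_le]
      rcases hx01 with h | h <;> rw [h] <;> constructor <;> linarith
    have hy : |l * (x - mean g)| ≤ 1 := by
      rw [abs_mul, abs_of_nonneg hl]
      calc l * |x - mean g| ≤ 1 * 1 := mul_le_mul hl1 hab (abs_nonneg _) (by norm_num)
        _ = 1 := one_mul 1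
    have h := Real.abs_exp_sub_one_sub_id_le hy
    have h2 := (abs_le.mp h).2
    nlinarith
  have hsum := Finset.sum_le_sum fun u (_ : u ∈ univ) => hpt u
  rw [Finset.sum_add_distrib, Finset.sum_add_distrib, ← Finset.mul_sum, ← Finset.mul_sum,
    Finset.sum_sub_distrib, Finset.sum_add_distrib, ← Finset.sum_mul, e0] at hsum
  simp only [Finset.sum_const, Finset.card_univ, nsmul_eq_mul, mul_one] at hsum
  refine hsum.trans ?_
  have h3 : mean g * (1 - mean g) ≤ 1 / 4 := by nlinarith [sq_nonneg (mean g - 1 / 2)]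
  have h4 : 1 + l ^ 2 / 4 ≤ Real.exp (l ^ 2 / 4) := by
    have := Real.add_one_le_exp (l ^ 2 / 4)
    linarith
  calc _ = Fintype.card Z * (1 + l ^ 2 * (mean g * (1 - mean g))) := by ring
    _ ≤ Fintype.card Z * (1 + l ^ 2 / 4) := by
        refine mul_le_mul_of_nonneg_left ?_ hZ.le
        nlinarith [sq_nonneg l]
    _ ≤ _ := mul_le_mul_of_nonneg_left h4 hZ.le

/-- Hoeffding's inequality. -/
theorem hoeffding (hN : 1 ≤ N) (g : Z → Bool) (π : Z ≃ Z) (t : Fin N) {ε : ℝ} (hε : 0 ≤ ε)
    (hε1 : ε ≤ 1 / 2) (B : Finset (Fin N → Z))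
    (hB : ∀ z ∈ B, (N - 1) * (mean g + ε) ≤
      ∑ i ∈ univ.erase t, (if g (π (z i)) then (1 : ℝ) else 0)) :
    (B.card : ℝ) ≤ Fintype.card (Fin N → Z) * Real.exp (-(ε ^ 2 * (N - 1))) := by
  classical
  have hZ : (0 : ℝ) < Fintype.card Z := by exact_mod_cast Fintype.card_pos
  obtain ⟨v, hv⟩ : ∃ v : Fin N → Z → ℝ, ∀ i u, v i u = if i = t then 1 else
    Real.exp (2 * ε * ((if g (π u) then (1 : ℝ) else 0) - mean g)) := ⟨_, fun _ _ => rfl⟩
  have hprod : ∀ z : Fin N → Z, ∏ i, v i (z i) = Real.exp (2 * ε *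
      ((∑ i ∈ univ.erase t, (if g (π (z i)) then (1 : ℝ) else 0)) - (N - 1) * mean g)) := by
    intro z
    rw [← Finset.mul_prod_erase _ _ (Finset.mem_univ t)]
    have h1 : v t (z t) = 1 := by rw [hv, if_pos rfl]
    have h2 : ∏ i ∈ univ.erase t, v i (z i) = ∏ i ∈ univ.erase t,
        Real.exp (2 * ε * ((if g (π (z i)) then (1 : ℝ) else 0) - mean g)) := by
      refine Finset.prod_congr rfl fun i hi => ?_
      rw [hv, if_neg (Finset.ne_of_mem_erase hi)]
    rw [h1, one_mul, h2, ← Real.exp_sum, ← Finset.mul_sum, Finset.sum_sub_distrib,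
      Finset.sum_const, Finset.card_erase_of_mem (Finset.mem_univ t), Finset.card_univ,
      Fintype.card_fin, nsmul_eq_mul, Nat.cast_sub hN, Nat.cast_one]
  have htot : ∑ z : Fin N → Z, ∏ i, v i (z i) ≤
      Fintype.card (Fin N → Z) * Real.exp (ε ^ 2 * (N - 1)) := by
    have h1 : ∑ z : Fin N → Z, ∏ i, v i (z i) = ∏ i, ∑ u, v i u := by
      rw [Finset.prod_univ_sum, Fintype.piFinset_univ]
    rw [h1, ← Finset.mul_prod_erase _ _ (Finset.mem_univ t)]
    have h2 : ∑ u, v t u = Fintype.card Z := by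
      rw [Finset.sum_congr rfl fun u _ => by rw [hv, if_pos rfl]]
      simp
    have h3 : ∏ i ∈ univ.erase t, ∑ u, v i u ≤
        ∏ _i ∈ univ.erase t, (Fintype.card Z * Real.exp (ε ^ 2)) := by
      refine Finset.prod_le_prod ?_ ?_
      · intro i hi
        refine Finset.sum_nonneg fun u _ => ?_
        rw [hv, if_neg (Finset.ne_of_mem_erase hi)]
        positivity
      · intro i hi
        rw [Finset.sum_congr rfl fun u _ => by rw [hv, if_neg (Finset.ne_of_mem_erase hi)]]
        refine (mgf_one g π (l := 2 * ε) (by linarith) (by linarith)).trans (le_of_eq ?_)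
        congr 2
        ring
    rw [Finset.prod_const, Finset.card_erase_of_mem (Finset.mem_univ t), Finset.card_univ,
      Fintype.card_fin] at h3
    have hNN : (Fintype.card Z : ℝ) * (Fintype.card Z) ^ (N - 1) =
        Fintype.card (Fin N → Z) := by
      rw [Fintype.card_fun, Fintype.card_fin, ← pow_succ']
      push_cast
      congr 1
      omega
    calc (∑ u, v t u) * ∏ i ∈ univ.erase t, ∑ u, v i u
        ≤ Fintype.card Z * (Fintype.card Z * Real.exp (ε ^ 2)) ^ (N - 1) := by
          rw [h2]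
          exact mul_le_mul_of_nonneg_left h3 hZ.le
      _ = Fintype.card (Fin N → Z) * Real.exp (ε ^ 2 * (N - 1)) := by
          rw [mul_pow, ← mul_assoc, hNN, ← Real.exp_nat_mul, Nat.cast_sub hN, Nat.cast_one]
          congr 2
          ring
  have hlow : (B.card : ℝ) * Real.exp (2 * ε * (ε * (N - 1))) ≤
      ∑ z : Fin N → Z, ∏ i, v i (z i) := by
    calc (B.card : ℝ) * Real.exp (2 * ε * (ε * (N - 1))) =
        ∑ _z ∈ B, Real.exp (2 * ε * (ε * (N - 1))) := by
          rw [Finset.sum_const, nsmul_eq_mul]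
      _ ≤ ∑ z ∈ B, ∏ i, v i (z i) := by
          refine Finset.sum_le_sum fun z hz => ?_
          rw [hprod]
          refine Real.exp_le_exp.mpr (mul_le_mul_of_nonneg_left ?_ (by linarith))
          have := hB z hz
          linarith
      _ ≤ _ := by
          refine Finset.sum_le_sum_of_subset_of_nonneg (Finset.subset_univ _) fun z _ _ => ?_
          rw [hprod]
          positivity
  have h5 := hlow.trans htot
  have h6 : Real.exp (ε ^ 2 * (N - 1)) =
      Real.exp (-(ε ^ 2 * (N - 1))) * Real.exp (2 * ε * (ε * (N - 1))) := by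
    rw [← Real.exp_add]
    congr 1
    ring
  have h7 : (B.card : ℝ) * Real.exp (2 * ε * (ε * (N - 1))) ≤
      (Fintype.card (Fin N → Z) * Real.exp (-(ε ^ 2 * (N - 1)))) *
        Real.exp (2 * ε * (ε * (N - 1))) := by
    rw [mul_assoc (Fintype.card (Fin N → Z) : ℝ), ← h6]
    exact h5
  exact le_of_mul_le_mul_right h7 (Real.exp_pos _)

/-- The average over the fibres. -/
theorem sum_mean (F : (Fin N → Z) → Bool) (t : Fin N) :
    ∑ z : Fin N → Z, mean (fun u => F (Function.update z t u)) =
      ∑ z : Fin N → Z, (if F z then (1 : ℝ) else 0) := by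
  classical
  have hZ : (0 : ℝ) < Fintype.card Z := by exact_mod_cast Fintype.card_pos
  unfold mean
  rw [← Finset.sum_div, div_eq_iff hZ.ne', ← Fintype.sum_prod_type',
    ← nsmul_eq_mul' , ← Finset.card_univ (α := Z), ← Finset.sum_const, ← Fintype.sum_prod_type']
  refine Finset.sum_nbij' (fun x => (x.1 t, Function.update x.1 t x.2))
    (fun y => (Function.update y.2 t y.1, y.2 t)) ?_ ?_ ?_ ?_ ?_
  · intro x _; exact Finset.mem_univ _
  · intro x _; exact Finset.mem_univ _
  · intro x _
    simp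
  · intro x _
    simp
  · intro x _
    rfl

/-- **Random against planted samples.** -/
theorem distinguish (hN : 1 ≤ N) (F : (Fin N → Z) → Bool) (π : Z ≃ Z) {ε : ℝ} (hε : 0 ≤ ε)
    (hε1 : ε ≤ 1 / 2) (𝒢 : Fin N → Finset (Z → Bool)) (C : ℝ) (hC : ∀ t, ((𝒢 t).card : ℝ) ≤ C)
    (Bad : Fin N → Finset (Fin N → Z))
    (hG : ∀ t z, z ∉ Bad t → (fun u => F (Function.update z t u)) ∈ 𝒢 t) :
    ∑ t, ∑ t' ∈ univ.erase t, ∑ z : Fin N → Z,
        (if F (Function.update z t (π (z t'))) then (1 : ℝ) else 0) ≤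
      (N - 1) * (N * (∑ z : Fin N → Z, (if F z then (1 : ℝ) else 0)) + ∑ t, ((Bad t).card : ℝ) +
        N * (ε + C * Real.exp (-(ε ^ 2 * (N - 1)))) * Fintype.card (Fin N → Z)) := by
  classical
  have hN1 : (0 : ℝ) ≤ N - 1 := by
    have : ((1 : ℕ) : ℝ) ≤ N := by exact_mod_cast hN
    push_cast at this
    linarith
  have hone : ∀ t, ∑ t' ∈ univ.erase t, ∑ z : Fin N → Z,
      (if F (Function.update z t (π (z t'))) then (1 : ℝ) else 0) ≤
      (N - 1) * ((∑ z : Fin N → Z, (if F z then (1 : ℝ) else 0)) + ((Bad t).card : ℝ) +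
        (ε + C * Real.exp (-(ε ^ 2 * (N - 1)))) * Fintype.card (Fin N → Z)) := by
    intro t
    rw [Finset.sum_comm]
    obtain ⟨D, hD⟩ : ∃ D : (Z → Bool) → Finset (Fin N → Z), ∀ g, D g = univ.filter fun z =>
      (N - 1) * (mean g + ε) ≤ ∑ i ∈ univ.erase t, (if g (π (z i)) then (1 : ℝ) else 0) :=
      ⟨_, fun _ => rfl⟩
    obtain ⟨E, hE⟩ : ∃ E : Finset (Fin N → Z), E = (𝒢 t).biUnion D := ⟨_, rfl⟩
    have hEc : (E.card : ℝ) ≤ C * Real.exp (-(ε ^ 2 * (N - 1))) * Fintype.card (Fin N → Z) := by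
      calc (E.card : ℝ) ≤ ((∑ g ∈ 𝒢 t, (D g).card : ℕ) : ℝ) := by
            rw [hE]
            exact_mod_cast Finset.card_biUnion_le
        _ = ∑ g ∈ 𝒢 t, ((D g).card : ℝ) := by push_cast; rfl
        _ ≤ ∑ _g ∈ 𝒢 t, Fintype.card (Fin N → Z) * Real.exp (-(ε ^ 2 * (N - 1))) := by
            refine Finset.sum_le_sum fun g _ => ?_
            refine hoeffding hN g π t hε hε1 (D g) fun z hz => ?_
            rw [hD, Finset.mem_filter] at hz
            exact hz.2
        _ = ((𝒢 t).card : ℝ) * (Fintype.card (Fin N → Z) * Real.exp (-(ε ^ 2 * (N - 1)))) := by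
            rw [Finset.sum_const, nsmul_eq_mul]
        _ ≤ C * (Fintype.card (Fin N → Z) * Real.exp (-(ε ^ 2 * (N - 1)))) :=
            mul_le_mul_of_nonneg_right (hC t) (by positivity)
        _ = _ := by ring
    have hpt : ∀ z : Fin N → Z, ∑ t' ∈ univ.erase t,
        (if F (Function.update z t (π (z t'))) then (1 : ℝ) else 0) ≤
        (N - 1) * (mean (fun u => F (Function.update z t u)) + ε +
          ((if z ∈ Bad t then 1 else 0) + (if z ∈ E then 1 else 0))) := by
      intro z
      have hmean := mean_mem (fun u => F (Function.update z t u))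
      have htriv : ∑ t' ∈ univ.erase t,
          (if F (Function.update z t (π (z t'))) then (1 : ℝ) else 0) ≤ N - 1 := by
        calc _ ≤ ∑ _t' ∈ univ.erase t, (1 : ℝ) :=
              Finset.sum_le_sum fun t' _ => by split_ifs <;> norm_num
          _ = _ := by
              rw [Finset.sum_const, nsmul_eq_mul, Finset.card_erase_of_mem (Finset.mem_univ t),
                Finset.card_univ, Fintype.card_fin, Nat.cast_sub hN, Nat.cast_one, mul_one]
      by_cases hb : z ∈ Bad t
      · rw [if_pos hb]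
        refine htriv.trans ?_
        have : (1 : ℝ) ≤ mean (fun u => F (Function.update z t u)) + ε +
          (1 + (if z ∈ E then 1 else 0)) := by
          split_ifs <;> linarith [hmean.1]
        nlinarith
      · by_cases he : z ∈ E
        · rw [if_pos he]
          refine htriv.trans ?_
          have : (1 : ℝ) ≤ mean (fun u => F (Function.update z t u)) + ε +
            ((if z ∈ Bad t then 1 else 0) + 1) := by
            split_ifs <;> linarith [hmean.1]
          nlinarith
        · rw [if_neg hb, if_neg he, add_zero, add_zero]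
          have hg := hG t z hb
          by_contra hcon
          push Not at hcon
          apply he
          rw [hE, Finset.mem_biUnion]
          refine ⟨_, hg, ?_⟩
          rw [hD, Finset.mem_filter]
          exact ⟨Finset.mem_univ _, hcon.le⟩
    refine (Finset.sum_le_sum fun z _ => hpt z).trans ?_
    rw [← Finset.mul_sum]
    refine mul_le_mul_of_nonneg_left ?_ hN1
    rw [Finset.sum_add_distrib, Finset.sum_add_distrib, Finset.sum_add_distrib, sum_mean F t]
    simp only [Finset.sum_const, Finset.card_univ, nsmul_eq_mul, Finset.sum_ite_mem,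
      Finset.univ_inter, mul_one]
    linarith
  refine (Finset.sum_le_sum fun t _ => hone t).trans (le_of_eq ?_)
  rw [← Finset.mul_sum, Finset.sum_add_distrib, Finset.sum_add_distrib]
  simp only [Finset.sum_const, Finset.card_univ, nsmul_eq_mul, Fintype.card_fin]
  ring

end Pool.Agent.H1.HL
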