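import Pool.Agent.H1.HL.Inst
import Pool.Agent.H1.HL.Dist

/-!
# The hard distribution
-/

set_option autoImplicit false
set_option linter.unusedSectionVars false

namespace Pool.Agent.H1.HL

open Finset Pool.Agent.H1.LT

variable {N m R k : ℕ}

theorem sum_pairs (f : Fin N → Fin N → ℝ) :
    ∑ x ∈ univ.filter (fun x : Fin N × Fin N => x.2 ≠ x.1), f x.1 x.2 =
      ∑ t, ∑ t' ∈ univ.erase t, f t t' := by
  classical
  rw [Finset.sum_filter, Fintype.sum_prod_type]
  refine Finset.sum_congr rfl fun t _ => ?_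
  rw [← Finset.sum_filter]
  refine Finset.sum_congr ?_ fun _ _ => rfl
  ext t'
  simp

theorem card_pairs (hN : 1 ≤ N) :
    ((univ.filter (fun x : Fin N × Fin N => x.2 ≠ x.1)).card : ℝ) = N * (N - 1) := by
  have h := sum_pairs (N := N) fun _ _ => 1
  rw [Finset.sum_const, nsmul_eq_mul, mul_one] at h
  rw [h]
  have h2 : ∀ t : Fin N, ∑ _t' ∈ univ.erase t, (1 : ℝ) = N - 1 := by
    intro t
    rw [Finset.sum_const, nsmul_eq_mul, mul_one, Finset.card_erase_of_mem (Finset.mem_univ t),
      Finset.card_univ, Fintype.card_fin, Nat.cast_sub hN, Nat.cast_one]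
  rw [Finset.sum_congr rfl fun t _ => h2 t, Finset.sum_const, Finset.card_univ,
    Fintype.card_fin, nsmul_eq_mul]

theorem planted_distinct (hk : 0 < k) {t t' : Fin N} (ht : t' ≠ t) {z : Fin N → Bits k → Bool}
    (hz : ∀ i j, i ≠ j → ¬ Meet (z i) (z j)) (i j : Fin N) (hij : i ≠ j) :
    Function.update z t (flip hk (z t')) i ≠ Function.update z t (flip hk (z t')) j := by
  have key : ∀ j, j ≠ t → flip hk (z t') ≠ z j := by
    intro j hj h
    by_cases hjt : j = t'
    · rw [hjt] at h
      exact pval_flip_ne hk (z t') (by rw [h])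
    · refine hz j t' hjt ⟨?_, ?_⟩
      · rw [← h, pval_flip_half]
      · rw [← h, qval_flip]
  by_cases hi : i = t
  · subst hi
    rw [Function.update_self, Function.update_of_ne hij.symm]
    exact key j hij.symm
  · by_cases hj : j = t
    · subst hj
      rw [Function.update_self, Function.update_of_ne hi]
      exact (key i hi).symm
    · rw [Function.update_of_ne hi, Function.update_of_ne hj]
      intro h
      exact hz i j hij ⟨by rw [h], by rw [h]⟩

theorem errors_lower (hk : 0 < k) (hN2 : 2 ≤ N) (hN : 8 * N ≤ 2 ^ k) (hR : 2 ^ k = 2 * R)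
    (h1 : N + R ≤ m) (h2 : 2 * R ≤ m) :
    ∃ (ι : Type) (_ : Fintype ι) (_ : Nonempty ι) (a b : ι → Fin m → ℕ),
      (∀ x, Simple (4 * m) (a x) (b x)) ∧
      ∀ (ans : (Fin m → ℕ) → (Fin m → ℕ) → Bool) (x : ℝ), 0 ≤ x →
        ∑ t, ∑ t' ∈ univ.erase t, ∑ z : Fin N → Bits k → Bool,
          (if ans (ea m R fun i => pval (Function.update z t (flipE hk (z t')) i))
            (eb m R fun i => qval (Function.update z t (flipE hk (z t')) i)) then (1 : ℝ) else 0) ≤
        (N - 1) * (N * (∑ z : Fin N → Bits k → Bool,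
          (if ans (ea m R fun i => pval (z i)) (eb m R fun i => qval (z i)) then (1 : ℝ) else 0)) +
          N * (3 / 32 + x) * Fintype.card (Fin N → Bits k → Bool)) →
        (27 / 64 - x / 2) * Fintype.card ι ≤
          ({y | ¬ (ans (a y) (b y) = true ↔ HasTriangle (a y) (b y))} : Set ι).ncard := by
  classical
  have hR1 : 1 ≤ R := by
    rcases Nat.eq_zero_or_pos R with h | h
    · rw [h] at hR
      have : 0 < 2 ^ k := by positivity
      omega
    · exact h
  obtain ⟨Pr, hPr⟩ : ∃ Pr : Finset (Fin N × Fin N), Pr = univ.filter fun x => x.2 ≠ x.1 :=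
    ⟨_, rfl⟩
  obtain ⟨G, hG⟩ : ∃ G : Finset (Fin N → Bits k → Bool), G = univ.filter fun z =>
    ∀ i j, i ≠ j → ¬ Meet (z i) (z j) := ⟨_, rfl⟩
  obtain ⟨W, hW⟩ : ∃ W : ℝ, W = Fintype.card (Fin N → Bits k → Bool) := ⟨_, rfl⟩
  have hW0 : 0 < W := by
    rw [hW]
    exact_mod_cast Fintype.card_pos
  have hBad : 32 * ((univ \ G).card : ℝ) ≤ W := by
    rw [hW]
    have := card_bad hN (univ \ G) fun z hz => by
      rw [Finset.mem_sdiff, hG, Finset.mem_filter, not_and] at hz
      have h := hz.2 (Finset.mem_univ _)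
      push Not at h
      exact h
    exact_mod_cast this
  have hGc : (G.card : ℝ) = W - (univ \ G).card := by
    have := Finset.card_sdiff_add_card_eq_card (Finset.subset_univ G)
    rw [Finset.card_univ] at this
    rw [hW, ← this]
    push_cast
    ring
  have hPc : (Pr.card : ℝ) = N * (N - 1) := by rw [hPr]; exact card_pairs (by omega)
  have hN1 : (1 : ℝ) ≤ (N : ℝ) - 1 := by
    have : ((2 : ℕ) : ℝ) ≤ N := by exact_mod_cast hN2
    push_cast at this
    linarith
  have hPpos : (0 : ℝ) < Pr.card := by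
    rw [hPc]
    have : (0 : ℝ) < N := by linarith
    positivity
  have hGpos : (0 : ℝ) < G.card := by
    rw [hGc]
    linarith
  have hJpos : 0 < (Pr ×ˢ G).card := by
    rw [Finset.card_product]
    have h1 : 0 < Pr.card := by exact_mod_cast hPpos
    have h2 : 0 < G.card := by exact_mod_cast hGpos
    positivity
  obtain ⟨x₀, hx₀⟩ := Finset.card_pos.mp hJpos
  refine ⟨(Pr ×ˢ G : Finset _) × Bool, inferInstance, ⟨(⟨x₀, hx₀⟩, true)⟩,
    fun x => ea m R fun i => pval ((if x.2 then Function.update x.1.1.2 x.1.1.1.1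
      (flipE hk (x.1.1.2 x.1.1.1.2)) else x.1.1.2) i),
    fun x => eb m R fun i => qval ((if x.2 then Function.update x.1.1.2 x.1.1.1.1
      (flipE hk (x.1.1.2 x.1.1.1.2)) else x.1.1.2) i), ?_, ?_⟩
  · rintro ⟨⟨⟨⟨t, t'⟩, z⟩, hx⟩, c⟩
    rw [Finset.mem_product, hPr, hG, Finset.mem_filter, Finset.mem_filter] at hx
    cases c
    · refine sample_simple hR hR1 h2 _ fun i j hij h => ?_
      simp only [Bool.false_eq_true, if_false] at h
      exact hx.2.2 i j hij ⟨by simp only [h], by simp only [h]⟩
    · refine sample_simple hR hR1 h2 _ fun i j hij => ?_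
      simp only [if_true]
      exact planted_distinct hk hx.1.2 hx.2.2 i j hij
  · intro ans x hx hH
    by_cases hx1 : 27 / 64 - x / 2 ≤ 0
    · exact (mul_nonpos_of_nonpos_of_nonneg hx1 (Nat.cast_nonneg _)).trans (Nat.cast_nonneg _)
    push Not at hx1
    obtain ⟨Fy, hFy⟩ : ∃ Fy : (Fin N → Bits k → Bool) → ℝ, ∀ z, Fy z =
      (if ans (ea m R fun i => pval (z i)) (eb m R fun i => qval (z i)) then (1 : ℝ) else 0) :=
      ⟨_, fun _ => rfl⟩
    have hF01 : ∀ z, 0 ≤ Fy z ∧ Fy z ≤ 1 := by
      intro z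
      rw [hFy]
      split_ifs <;> norm_num
    have hH' : ∑ t, ∑ t' ∈ univ.erase t, ∑ z : Fin N → Bits k → Bool,
        Fy (Function.update z t (flipE hk (z t'))) ≤
        (N - 1) * (N * (∑ z : Fin N → Bits k → Bool, Fy z) + N * (3 / 32 + x) * W) := by
      simp only [hFy, hW]
      exact hH
    -- the number of errors
    have hcount : ∑ y ∈ Pr ×ˢ G, ((1 - Fy (Function.update y.2 y.1.1 (flipE hk (y.2 y.1.2)))) +
        Fy y.2) ≤ (({y : (Pr ×ˢ G : Finset _) × Bool | ¬ (ans
          (ea m R fun i => pval ((if y.2 then Function.update y.1.1.2 y.1.1.1.1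
            (flipE hk (y.1.1.2 y.1.1.1.2)) else y.1.1.2) i))
          (eb m R fun i => qval ((if y.2 then Function.update y.1.1.2 y.1.1.1.1
            (flipE hk (y.1.1.2 y.1.1.1.2)) else y.1.1.2) i)) = true ↔ HasTriangle
          (ea m R fun i => pval ((if y.2 then Function.update y.1.1.2 y.1.1.1.1
            (flipE hk (y.1.1.2 y.1.1.1.2)) else y.1.1.2) i))
          (eb m R fun i => qval ((if y.2 then Function.update y.1.1.2 y.1.1.1.1
            (flipE hk (y.1.1.2 y.1.1.1.2)) else y.1.1.2) i)))} :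
          Set ((Pr ×ˢ G : Finset _) × Bool)).ncard : ℝ) := by
      rw [Set.ncard_eq_toFinset_card']
      simp only [Set.toFinset_ofPred]
      rw [Finset.card_filter]
      push_cast
      rw [Fintype.sum_prod_type, ← Finset.sum_coe_sort (Pr ×ˢ G)]
      refine Finset.sum_le_sum fun y _ => ?_
      obtain ⟨⟨⟨t, t'⟩, z⟩, hy⟩ := y
      have hy' := hy
      rw [Finset.mem_product, hPr, hG, Finset.mem_filter, Finset.mem_filter] at hy'
      rw [Fintype.sum_bool]
      simp only [Bool.false_eq_true, if_false, if_true]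
      have hyes : HasTriangle
          (ea m R fun i => pval (Function.update z t (flipE hk (z t')) i))
          (eb m R fun i => qval (Function.update z t (flipE hk (z t')) i)) := by
        refine sample_yes hR h1 hk _ (s := t) (l := t') ?_
        rw [Function.update_self, Function.update_of_ne hy'.1.2, flipE_apply]
      have hno := sample_no (m := m) hR z hy'.2.2
      refine add_le_add ?_ ?_
      · rw [hFy]
        by_cases hc : ans (ea m R fun i => pval (Function.update z t (flipE hk (z t')) i))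
            (eb m R fun i => qval (Function.update z t (flipE hk (z t')) i)) = true
        · rw [if_pos hc]
          split_ifs <;> norm_num
        · rw [if_neg hc, if_pos]
          · norm_num
          · intro h
            exact hc (h.mpr hyes)
      · rw [hFy]
        by_cases hc : ans (ea m R fun i => pval (z i)) (eb m R fun i => qval (z i)) = true
        · rw [if_pos hc, if_pos]
          intro h
          exact hno (h.mp hc)
        · rw [if_neg hc]
          split_ifs <;> norm_num
    refine le_trans ?_ hcount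
    rw [Finset.sum_add_distrib, Finset.sum_sub_distrib, Finset.sum_const, nsmul_eq_mul, mul_one,
      Finset.card_product]
    have hY : ∑ y ∈ Pr ×ˢ G, Fy (Function.update y.2 y.1.1 (flipE hk (y.2 y.1.2))) ≤
        (N - 1) * (N * (∑ z : Fin N → Bits k → Bool, Fy z) + N * (3 / 32 + x) * W) := by
      refine le_trans ?_ hH'
      rw [Finset.sum_product, ← sum_pairs fun t t' => ∑ z : Fin N → Bits k → Bool,
        Fy (Function.update z t (flipE hk (z t'))), ← hPr]
      refine Finset.sum_le_sum fun x _ => ?_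
      exact Finset.sum_le_sum_of_subset_of_nonneg (Finset.subset_univ _)
        fun z _ _ => (hF01 _).1
    have hX : (Pr.card : ℝ) * ((∑ z : Fin N → Bits k → Bool, Fy z) - (univ \ G).card) ≤
        ∑ y ∈ Pr ×ˢ G, Fy y.2 := by
      rw [Finset.sum_product]
      simp only
      rw [Finset.sum_const, nsmul_eq_mul]
      refine mul_le_mul_of_nonneg_left ?_ hPpos.le
      rw [← Finset.sum_sdiff (Finset.subset_univ G)]
      have : ∑ z ∈ univ \ G, Fy z ≤ ((univ \ G).card : ℝ) := by
        calc ∑ z ∈ univ \ G, Fy z ≤ ∑ _z ∈ univ \ G, (1 : ℝ) :=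
              Finset.sum_le_sum fun z _ => (hF01 z).2
          _ = _ := by rw [Finset.sum_const, nsmul_eq_mul, mul_one]
      linarith
    rw [Fintype.card_prod, Fintype.card_bool, Fintype.card_coe, Finset.card_product]
    push_cast
    obtain ⟨X, hXd⟩ : ∃ X : ℝ, X = ∑ z : Fin N → Bits k → Bool, Fy z := ⟨_, rfl⟩
    rw [← hXd] at hY hX
    obtain ⟨b, hb⟩ : ∃ b : ℝ, b = ((univ \ G).card : ℝ) := ⟨_, rfl⟩
    rw [← hb] at hX hGc hBad
    have hb0 : 0 ≤ b := by rw [hb]; positivity
    -- the rest is arithmetic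
    have hP : (Pr.card : ℝ) = N * (N - 1) := hPc
    have e1 : (N - 1) * (N * X + N * (3 / 32 + x) * W) =
        (Pr.card : ℝ) * (X + (3 / 32 + x) * W) := by rw [hP]; ring
    rw [e1] at hY
    have e2 : (Pr.card : ℝ) * (W - 2 * b - (3 / 32 + x) * W) ≤
        (Pr.card : ℝ) * G.card - ∑ y ∈ Pr ×ˢ G, Fy (Function.update y.2 y.1.1
          (flipE hk (y.2 y.1.2))) + ∑ y ∈ Pr ×ˢ G, Fy y.2 := by
      rw [hGc]
      nlinarith
    refine le_trans ?_ e2
    have e3 : (27 / 64 - x / 2) * (G.card * 2) ≤ W - 2 * b - (3 / 32 + x) * W := by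
      rw [hGc]
      have hxb : x * b ≤ 27 / 32 * b := mul_le_mul_of_nonneg_right (by linarith) hb0
      nlinarith
    calc (27 / 64 - x / 2) * ((Pr.card : ℝ) * G.card * 2) =
        Pr.card * ((27 / 64 - x / 2) * (G.card * 2)) := by ring
      _ ≤ _ := mul_le_mul_of_nonneg_left e3 hPpos.le

end Pool.Agent.H1.HL
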