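import Pool.Agent.H1.LT.Inst
import Pool.Agent.H1.HL.Act

/-!
# The lists of edges
-/

set_option autoImplicit false
set_option linter.unusedSectionVars false

namespace Pool.Agent.H1.HL

open Finset Pool.Agent.H1.LT

variable {N m R : ℕ}

/-- First names. -/
def ea (m R : ℕ) (p : Fin N → ℕ) (i : Fin m) : ℕ :=
  if h : (i : ℕ) < N then p ⟨i, h⟩ else if (i : ℕ) < N + R then 2 * (i - N) else 4 * R

/-- Second names. -/
def eb (m R : ℕ) (q : Fin N → ℕ) (i : Fin m) : ℕ :=
  if h : (i : ℕ) < N then 2 * R + q ⟨i, h⟩ else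
    if (i : ℕ) < N + R then 2 * (i - N) + 1 else 4 * R + 1 + (i - N - R)

theorem simple_inst (h1 : 1 ≤ R) (h2 : 2 * R ≤ m) (p q : Fin N → ℕ)
    (hp : ∀ i, p i < 2 * R) (hq : ∀ i, q i < 2 * R)
    (hd : ∀ i j, i ≠ j → ¬ (p i = p j ∧ q i = q j)) :
    Simple (4 * m) (ea m R p) (eb m R q) := by
  refine ⟨fun i => ?_, fun i j => ?_⟩
  · have hi := i.isLt
    unfold ea eb
    by_cases h : (i : ℕ) < N
    · have h3 := hp ⟨i, h⟩
      have h4 := hq ⟨i, h⟩
      simp only [h, dif_pos]
      omega
    · by_cases h' : (i : ℕ) < N + R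
      · simp only [h, dif_neg, not_false_iff, h', if_true]
        omega
      · simp only [h, dif_neg, not_false_iff, h', if_false]
        omega
  · have hi := i.isLt
    have hj := j.isLt
    unfold ea eb
    by_cases h : (i : ℕ) < N
    · have h3 := hp ⟨i, h⟩
      have h4 := hq ⟨i, h⟩
      by_cases g : (j : ℕ) < N
      · simp only [h, g, dif_pos]
        intro e1 e2
        by_contra hne
        refine hd ⟨i, h⟩ ⟨j, g⟩ ?_ ⟨e1, by omega⟩
        intro e
        apply hne
        rw [Fin.mk.injEq] at e
        exact Fin.ext e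
      · by_cases g' : (j : ℕ) < N + R
        · simp only [h, g, dif_pos, dif_neg, not_false_iff, g', if_true]
          omega
        · simp only [h, g, dif_pos, dif_neg, not_false_iff, g', if_false]
          omega
    · by_cases h' : (i : ℕ) < N + R
      · by_cases g : (j : ℕ) < N
        · have g3 := hp ⟨j, g⟩
          simp only [h, g, dif_pos, dif_neg, not_false_iff, h', if_true]
          omega
        · by_cases g' : (j : ℕ) < N + R
          · simp only [h, g, dif_neg, not_false_iff, h', g', if_true]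
            intro e1 e2
            apply Fin.ext
            omega
          · simp only [h, g, dif_neg, not_false_iff, h', g', if_true, if_false]
            omega
      · by_cases g : (j : ℕ) < N
        · have g3 := hp ⟨j, g⟩
          simp only [h, g, dif_pos, dif_neg, not_false_iff, h', if_false]
          omega
        · by_cases g' : (j : ℕ) < N + R
          · simp only [h, g, dif_neg, not_false_iff, h', g', if_true, if_false]
            omega
          · simp only [h, g, dif_neg, not_false_iff, h', g', if_false]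
            intro e1 e2
            apply Fin.ext
            omega

theorem triangle_inst (h1 : N + R ≤ m) (p q : Fin N → ℕ) {s l : Fin N} {k : ℕ} (hk : k < R)
    (hs : p s = 2 * k) (hl : p l = 2 * k + 1) (hq : q s = q l) :
    HasTriangle (ea m R p) (eb m R q) := by
  have e1 := s.isLt
  have e2 := l.isLt
  refine ⟨⟨N + k, by omega⟩, ⟨s, by omega⟩, ⟨l, by omega⟩, ?_, ?_, ?_⟩
  · simp only [ea, e1, dif_pos, Fin.eta, hs]
    rw [dif_neg (by omega), if_pos (by omega)]
    omega
  · simp only [ea, eb, e2, dif_pos, Fin.eta, hl]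
    rw [dif_neg (by omega), if_pos (by omega)]
    omega
  · simp only [eb, e1, e2, dif_pos, Fin.eta, hq]

theorem of_triangle_inst (p q : Fin N → ℕ) (hp : ∀ i, p i < 2 * R) (hq : ∀ i, q i < 2 * R)
    (h : HasTriangle (ea m R p) (eb m R q)) :
    ∃ s l, s ≠ l ∧ p s / 2 = p l / 2 ∧ q s = q l := by
  obtain ⟨i, j, l, e1, e2, e3⟩ := h
  unfold ea at e1 e2
  unfold eb at e2 e3
  by_cases hi : (i : ℕ) < N
  · exfalso
    rw [dif_pos hi] at e2
    have := hq ⟨i, hi⟩
    by_cases hl : (l : ℕ) < N
    · rw [dif_pos hl] at e2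
      have := hp ⟨l, hl⟩
      omega
    · rw [dif_neg hl] at e2
      split_ifs at e2 <;> omega
  · rw [dif_neg hi] at e1 e2
    by_cases hi' : (i : ℕ) < N + R
    · rw [if_pos hi'] at e1 e2
      by_cases hl : (l : ℕ) < N
      · rw [dif_pos hl] at e2 e3
        have := hq ⟨l, hl⟩
        by_cases hj : (j : ℕ) < N
        · rw [dif_pos hj] at e1 e3
          refine ⟨⟨j, hj⟩, ⟨l, hl⟩, ?_, by omega, by omega⟩
          intro e
          rw [e] at e1
          omega
        · rw [dif_neg hj] at e1 e3
          exfalso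
          split_ifs at e1 e3 <;> omega
      · rw [dif_neg hl] at e2
        exfalso
        split_ifs at e2 <;> omega
    · rw [if_neg hi'] at e1 e2
      exfalso
      by_cases hl : (l : ℕ) < N
      · rw [dif_pos hl] at e2
        have := hp ⟨l, hl⟩
        omega
      · rw [dif_neg hl] at e2
        split_ifs at e2 <;> omega

/-! ### Names given by bits -/

/-- The bits of the two names of a data edge. -/
abbrev Bits (k : ℕ) := Fin k ⊕ Fin k

variable {k : ℕ}

/-- The first name. -/
def pval (u : Bits k → Bool) : ℕ := Nat.ofBits fun j : Fin k => u (Sum.inl j)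

/-- The second name. -/
def qval (u : Bits k → Bool) : ℕ := Nat.ofBits fun j : Fin k => u (Sum.inr j)

theorem pval_lt (u : Bits k → Bool) : pval u < 2 ^ k := Nat.ofBits_lt_two_pow _

theorem qval_lt (u : Bits k → Bool) : qval u < 2 ^ k := Nat.ofBits_lt_two_pow _

theorem pval_testBit (u : Bits k → Bool) (j : Fin k) : (pval u).testBit j = u (Sum.inl j) := by
  unfold pval
  rw [Nat.testBit_ofBits_lt _ _ j.isLt]

theorem qval_testBit (u : Bits k → Bool) (j : Fin k) : (qval u).testBit j = u (Sum.inr j) := by
  unfold qval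
  rw [Nat.testBit_ofBits_lt _ _ j.isLt]

theorem vals_injective {u v : Bits k → Bool} (h1 : pval u = pval v) (h2 : qval u = qval v) :
    u = v := by
  funext j
  rcases j with j | j
  · rw [← pval_testBit u, ← pval_testBit v, h1]
  · rw [← qval_testBit u, ← qval_testBit v, h2]

/-- Change of the last bit of the first name. -/
def flip (hk : 0 < k) (u : Bits k → Bool) : Bits k → Bool :=
  Function.update u (Sum.inl ⟨0, hk⟩) (!u (Sum.inl ⟨0, hk⟩))

theorem flip_involutive (hk : 0 < k) : Function.Involutive (flip (k := k) hk) := by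
  intro u
  unfold flip
  simp

/-- Change of the last bit of the first name. -/
def flipE (hk : 0 < k) : (Bits k → Bool) ≃ (Bits k → Bool) := (flip_involutive hk).toPerm

theorem flipE_apply (hk : 0 < k) (u : Bits k → Bool) : flipE hk u = flip hk u := rfl

theorem qval_flip (hk : 0 < k) (u : Bits k → Bool) : qval (flip hk u) = qval u := by
  unfold qval flip
  congr 1

theorem pval_flip_ne (hk : 0 < k) (u : Bits k → Bool) : pval (flip hk u) ≠ pval u := by
  intro h
  have h1 := pval_testBit (flip hk u) ⟨0, hk⟩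
  rw [h, pval_testBit] at h1
  unfold flip at h1
  simp at h1

theorem pval_flip_half (hk : 0 < k) (u : Bits k → Bool) :
    pval (flip hk u) / 2 = pval u / 2 := by
  refine Nat.eq_of_testBit_eq fun i => ?_
  rw [← Nat.testBit_succ, ← Nat.testBit_succ]
  by_cases hi : i + 1 < k
  · have h1 := pval_testBit (flip hk u) ⟨i + 1, hi⟩
    have h2 := pval_testBit u ⟨i + 1, hi⟩
    simp only at h1 h2
    rw [h1, h2]
    unfold flip
    rw [Function.update_of_ne]
    simp
  · unfold pval
    rw [Nat.testBit_ofBits_ge _ _ (by omega), Nat.testBit_ofBits_ge _ _ (by omega)]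

/-! ### Good samples -/

/-- Two data edges meet. -/
def Meet (u v : Bits k → Bool) : Prop := pval u / 2 = pval v / 2 ∧ qval u = qval v

theorem card_meet (v : Bits k → Bool) (B : Finset (Bits k → Bool)) (hB : ∀ u ∈ B, Meet u v) :
    B.card ≤ 2 := by
  classical
  have h1 : B.card ≤ ({2 * (pval v / 2), 2 * (pval v / 2) + 1} : Finset ℕ).card := by
    refine Finset.card_le_card_of_injOn pval ?_ ?_
    · intro u hu
      have := (hB u hu).1
      simp only [Finset.coe_insert, Finset.coe_singleton, Set.mem_insert_iff,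
        Set.mem_singleton_iff]
      omega
    · intro u hu u' hu' h
      exact vals_injective h ((hB u hu).2.trans (hB u' hu').2.symm)
  exact h1.trans Finset.card_le_two

theorem card_meet_pair {i j : Fin N} (hij : i ≠ j) (B : Finset (Fin N → Bits k → Bool))
    (hB : ∀ z ∈ B, Meet (z i) (z j)) :
    B.card * 4 ^ k ≤ 2 * Fintype.card (Fin N → Bits k → Bool) := by
  classical
  have hX : Fintype.card (Bits k → Bool) = 4 ^ k := by
    rw [Fintype.card_fun, Fintype.card_sum, Fintype.card_fin, Fintype.card_bool, ← two_mul,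
      pow_mul]
    norm_num
  rw [← hX]
  refine resample (W := Fin N → Bits k → Bool) (X := Bits k → Bool)
    (fun z u => Function.update z i u) (fun z => z i) ?_ ?_ ?_ _ _ ?_
  · intro w x
    simp
  · intro w
    simp
  · intro w x y
    simp
  · intro z
    refine card_meet (z j) _ fun u hu => ?_
    rw [Finset.mem_filter] at hu
    have := hB _ hu.2
    rw [Function.update_self, Function.update_of_ne hij.symm] at this
    exact this

theorem card_bad (hN : 8 * N ≤ 2 ^ k) (B : Finset (Fin N → Bits k → Bool))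
    (hB : ∀ z ∈ B, ∃ i j, i ≠ j ∧ Meet (z i) (z j)) :
    32 * B.card ≤ Fintype.card (Fin N → Bits k → Bool) := by
  classical
  rcases Nat.eq_zero_or_pos N with h0 | h0
  · have : B = ∅ := by
      rw [Finset.eq_empty_iff_forall_notMem]
      intro z hz
      obtain ⟨i, _⟩ := hB z hz
      subst h0
      exact i.elim0
    rw [this]
    simp
  have hsub : B ⊆ (univ : Finset (Fin N × Fin N)).biUnion fun x =>
      univ.filter fun z => x.1 ≠ x.2 ∧ Meet (z x.1) (z x.2) := by
    intro z hz
    obtain ⟨i, j, h1, h2⟩ := hB z hz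
    rw [Finset.mem_biUnion]
    exact ⟨(i, j), Finset.mem_univ _, by simp [h1, h2]⟩
  have h1 : B.card * 4 ^ k ≤ N ^ 2 * (2 * Fintype.card (Fin N → Bits k → Bool)) := by
    calc B.card * 4 ^ k ≤ (∑ x : Fin N × Fin N, (univ.filter fun z : Fin N → Bits k → Bool =>
          x.1 ≠ x.2 ∧ Meet (z x.1) (z x.2)).card) * 4 ^ k :=
          Nat.mul_le_mul_right _ ((Finset.card_le_card hsub).trans Finset.card_biUnion_le)
      _ = ∑ x : Fin N × Fin N, (univ.filter fun z : Fin N → Bits k → Bool =>
          x.1 ≠ x.2 ∧ Meet (z x.1) (z x.2)).card * 4 ^ k := by rw [Finset.sum_mul]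
      _ ≤ ∑ _x : Fin N × Fin N, 2 * Fintype.card (Fin N → Bits k → Bool) := by
          refine Finset.sum_le_sum fun x _ => ?_
          by_cases hx : x.1 = x.2
          · simp [hx]
          · exact card_meet_pair hx _ fun z hz => (Finset.mem_filter.mp hz).2.2
      _ = _ := by
          rw [Finset.sum_const, Finset.card_univ, Fintype.card_prod, Fintype.card_fin,
            smul_eq_mul]
          ring
  have h2 : 64 * N ^ 2 ≤ 4 ^ k := by
    calc 64 * N ^ 2 = (8 * N) ^ 2 := by ring
      _ ≤ (2 ^ k) ^ 2 := Nat.pow_le_pow_left hN 2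
      _ = 4 ^ k := by rw [← pow_mul, mul_comm, pow_mul]; norm_num
  have h3 : (32 * B.card) * (2 * N ^ 2) ≤ Fintype.card (Fin N → Bits k → Bool) * (2 * N ^ 2) := by
    calc (32 * B.card) * (2 * N ^ 2) = B.card * (64 * N ^ 2) := by ring
      _ ≤ B.card * 4 ^ k := Nat.mul_le_mul_left _ h2
      _ ≤ _ := h1
      _ = _ := by ring
  exact Nat.le_of_mul_le_mul_right h3 (by positivity)

/-! ### The lists of the samples -/

section lists
variable (hR : 2 ^ k = 2 * R)
include hR

theorem sample_simple (h1 : 1 ≤ R) (h2 : 2 * R ≤ m) (z : Fin N → Bits k → Bool)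
    (hz : ∀ i j, i ≠ j → z i ≠ z j) :
    Simple (4 * m) (ea m R fun i => pval (z i)) (eb m R fun i => qval (z i)) := by
  refine simple_inst h1 h2 _ _ (fun i => ?_) (fun i => ?_) fun i j hij h => ?_
  · rw [← hR]; exact pval_lt _
  · rw [← hR]; exact qval_lt _
  · exact hz i j hij (vals_injective h.1 h.2)

theorem sample_no (z : Fin N → Bits k → Bool) (hz : ∀ i j, i ≠ j → ¬ Meet (z i) (z j)) :
    ¬ HasTriangle (ea m R fun i => pval (z i)) (eb m R fun i => qval (z i)) := by
  intro h
  obtain ⟨s, l, h1, h2⟩ := of_triangle_inst _ _ (fun i => by rw [← hR]; exact pval_lt _)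
    (fun i => by rw [← hR]; exact qval_lt _) h
  exact hz s l h1 h2

theorem sample_yes (h1 : N + R ≤ m) (hk : 0 < k) (z : Fin N → Bits k → Bool) {s l : Fin N}
    (h : z s = flip hk (z l)) :
    HasTriangle (ea m R fun i => pval (z i)) (eb m R fun i => qval (z i)) := by
  have hq : qval (z s) = qval (z l) := by rw [h, qval_flip]
  have hne : pval (z s) ≠ pval (z l) := by rw [h]; exact pval_flip_ne hk _
  have hhalf : pval (z s) / 2 = pval (z l) / 2 := by rw [h, pval_flip_half]
  have hlt : pval (z l) / 2 < R := by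
    have := pval_lt (z l)
    omega
  by_cases hpar : pval (z s) % 2 = 0
  · exact triangle_inst h1 _ _ (s := s) (l := l) (k := pval (z l) / 2) hlt (by omega)
      (by omega) hq
  · exact triangle_inst h1 _ _ (s := l) (l := s) (k := pval (z l) / 2) hlt (by omega)
      (by omega) hq.symm

end lists

/-! ### Linear forms in the bits -/

theorem sum_bits {L : ℕ} (x : ℕ) (u : Fin k → Bool) (hL : k ≤ L)
    (hx : ∀ j : Fin k, x.testBit j = u j) (y : ℕ) (hy : ∀ j, k ≤ j → x.testBit j = y.testBit j)
    (hy' : ∀ j, j < k → y.testBit j = false) (α : Fin L → ℝ) :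
    ∑ j : Fin L, (if x.testBit j then α j else 0) =
      (∑ j : Fin L, (if y.testBit j then α j else 0)) +
        ∑ j : Fin k, (if u j then α (Fin.castLE hL j) else 0) := by
  obtain ⟨M, rfl⟩ : ∃ M, L = k + M := ⟨L - k, by omega⟩
  rw [Fin.sum_univ_add, Fin.sum_univ_add]
  have e1 : ∀ j : Fin k, (if x.testBit (Fin.castAdd M j : Fin (k + M)) then
      α (Fin.castAdd M j) else 0) = (if u j then α (Fin.castLE hL j) else 0) := by
    intro j
    have : (Fin.castLE hL j) = Fin.castAdd M j := rfl
    rw [this, Fin.val_castAdd, hx]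
  have e2 : ∀ j : Fin k, (if y.testBit (Fin.castAdd M j : Fin (k + M)) then
      α (Fin.castAdd M j) else 0) = 0 := by
    intro j
    rw [Fin.val_castAdd, hy' j j.isLt]
    simp
  have e3 : ∀ j : Fin M, (if x.testBit (Fin.natAdd k j : Fin (k + M)) then
      α (Fin.natAdd k j) else 0) = (if y.testBit (Fin.natAdd k j : Fin (k + M)) then
      α (Fin.natAdd k j) else 0) := by
    intro j
    rw [hy _ (by simp)]
  rw [Finset.sum_congr rfl fun j _ => e1 j, Finset.sum_congr rfl fun j _ => e2 j,
    Finset.sum_congr rfl fun j _ => e3 j, Finset.sum_const_zero]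
  ring

theorem form_inst {L : ℕ} (hR : 2 ^ k = 2 * R) (hNm : N ≤ m) (hL : k ≤ L)
    (α β : Fin m → Fin L → ℝ) :
    ∃ C : ℝ, ∀ z : Fin N → Bits k → Bool,
      ∑ i, ∑ j : Fin L, ((if (ea m R (fun i => pval (z i)) i).testBit j then α i j else 0) +
        (if (eb m R (fun i => qval (z i)) i).testBit j then β i j else 0)) =
      C + form (fun (i : Fin N) (j : Bits k) => Sum.elim
        (fun j => α (Fin.castLE hNm i) (Fin.castLE hL j))
        (fun j => β (Fin.castLE hNm i) (Fin.castLE hL j)) j) z := by
  obtain ⟨M, rfl⟩ : ∃ M, m = N + M := ⟨m - N, by omega⟩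
  refine ⟨(∑ i : Fin N, ∑ j : Fin L, (if (2 ^ k : ℕ).testBit j then β (Fin.castAdd M i) j else 0)) +
    ∑ i : Fin M, ∑ j : Fin L,
      ((if (ea (N + M) R (fun _ : Fin N => 0) (Fin.natAdd N i)).testBit j then
        α (Fin.natAdd N i) j else 0) +
      (if (eb (N + M) R (fun _ : Fin N => 0) (Fin.natAdd N i)).testBit j then
        β (Fin.natAdd N i) j else 0)), fun z => ?_⟩
  rw [Fin.sum_univ_add]
  have e1 : ∀ i : Fin N, ∑ j : Fin L,
      ((if (ea (N + M) R (fun i => pval (z i)) (Fin.castAdd M i)).testBit j then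
        α (Fin.castAdd M i) j else 0) +
      (if (eb (N + M) R (fun i => qval (z i)) (Fin.castAdd M i)).testBit j then
        β (Fin.castAdd M i) j else 0)) =
      (∑ j : Fin L, (if (2 ^ k : ℕ).testBit j then β (Fin.castAdd M i) j else 0)) +
      ∑ j : Bits k, (if z i j then (Sum.elim
        (fun j => α (Fin.castLE hNm i) (Fin.castLE hL j))
        (fun j => β (Fin.castLE hNm i) (Fin.castLE hL j)) j) else 0) := by
    intro i
    have hi : ((Fin.castAdd M i : Fin (N + M)) : ℕ) < N := by simp
    have hc : Fin.castLE hNm i = Fin.castAdd M i := rfl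
    have hp : ea (N + M) R (fun i => pval (z i)) (Fin.castAdd M i) = pval (z i) := by
      unfold ea
      rw [dif_pos hi]
      congr 1
    have hq : eb (N + M) R (fun i => qval (z i)) (Fin.castAdd M i) = 2 ^ k + qval (z i) := by
      unfold eb
      rw [dif_pos hi, hR]
      congr 1
    rw [hp, hq, hc, Finset.sum_add_distrib, Fintype.sum_sum_type]
    have s1 := sum_bits (pval (z i)) (fun j => z i (Sum.inl j)) hL (pval_testBit (z i)) 0
      (fun j hj => by
        rw [Nat.zero_testBit]
        unfold pval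
        exact Nat.testBit_ofBits_ge _ _ hj) (fun j _ => Nat.zero_testBit j)
      (fun j => α (Fin.castAdd M i) j)
    have s2 := sum_bits (2 ^ k + qval (z i)) (fun j => z i (Sum.inr j)) hL (fun j => by
        rw [Nat.testBit_two_pow_add_gt j.isLt, qval_testBit]) (2 ^ k)
      (fun j hj => by
        obtain ⟨d, rfl⟩ : ∃ d, j = k + d := ⟨j - k, by omega⟩
        have h1 : (2 ^ k + qval (z i)) / 2 ^ k = 1 := by
          have := qval_lt (z i)
          rw [Nat.add_div_left _ (by positivity), Nat.div_eq_of_lt this]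
        have h2 : (2 ^ k) / 2 ^ k = 1 := Nat.div_self (by positivity)
        rw [add_comm k d, ← Nat.testBit_div_two_pow, ← Nat.testBit_div_two_pow, h1, h2])
      (fun j hj => by
        rw [Nat.testBit_two_pow]
        simp
        omega) (fun j => β (Fin.castAdd M i) j)
    rw [s1, s2]
    simp only [Nat.zero_testBit, Bool.false_eq_true, if_false, Finset.sum_const_zero, zero_add,
      Sum.elim_inl, Sum.elim_inr]
    ring
  have e2 : ∀ i : Fin M, ∑ j : Fin L,
      ((if (ea (N + M) R (fun i => pval (z i)) (Fin.natAdd N i)).testBit j then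
        α (Fin.natAdd N i) j else 0) +
      (if (eb (N + M) R (fun i => qval (z i)) (Fin.natAdd N i)).testBit j then
        β (Fin.natAdd N i) j else 0)) = ∑ j : Fin L,
      ((if (ea (N + M) R (fun _ : Fin N => 0) (Fin.natAdd N i)).testBit j then
        α (Fin.natAdd N i) j else 0) +
      (if (eb (N + M) R (fun _ : Fin N => 0) (Fin.natAdd N i)).testBit j then
        β (Fin.natAdd N i) j else 0)) := by
    intro i
    have hj : ¬ ((Fin.natAdd N i : Fin (N + M)) : ℕ) < N := by simp
    have hp : ea (N + M) R (fun i => pval (z i)) (Fin.natAdd N i) =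
        ea (N + M) R (fun _ : Fin N => 0) (Fin.natAdd N i) := by
      unfold ea
      rw [dif_neg hj, dif_neg hj]
    have hq : eb (N + M) R (fun i => qval (z i)) (Fin.natAdd N i) =
        eb (N + M) R (fun _ : Fin N => 0) (Fin.natAdd N i) := by
      unfold eb
      rw [dif_neg hj, dif_neg hj]
    rw [hp, hq]
  rw [Finset.sum_congr rfl fun i _ => e1 i, Finset.sum_congr rfl fun i _ => e2 i,
    Finset.sum_add_distrib]
  unfold form
  ring

end Pool.Agent.H1.HL
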