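import Pool.Agent.H1.HL.Act
import Pool.Agent.H1.HL.Dist
import Pool.Agent.H1.HL.Code

/-!
# Networks with one hidden layer do not distinguish random from planted samples
-/

set_option autoImplicit false
set_option linter.unusedSectionVars false

namespace Pool.Agent.H1.HL

open Finset

variable {N : ℕ} {ι : Type*} [Fintype ι] [DecidableEq ι]

/-- The answer of a network with one hidden layer of threshold units and arbitrary functions of
the single items. -/
noncomputable def netAns {G : Type*} [Fintype G] (w : G → Fin N → ι → ℝ) (τ c : G → ℝ)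
    (ψ : Fin N → (ι → Bool) → ℝ) (θ : ℝ) (z : Fin N → ι → Bool) : Bool :=
  decide (θ < ∑ i, ψ i (z i) + ∑ g, (if τ g < form (w g) z then c g else 0))

theorem markov_card {G : Type*} [Fintype G] [DecidableEq G] {W : Type*} [Fintype W]
    (P : G → W → Prop) [∀ g z, Decidable (P g z)] (K : ℕ) (B : Finset W)
    (hB : ∀ z ∈ B, K < (univ.filter fun g => P g z).card) :
    ((K : ℝ) + 1) * B.card ≤ ∑ g, ((univ.filter fun z => P g z).card : ℝ) := by
  classical
  have h1 : ∑ g, ((univ.filter fun z => P g z).card : ℝ) =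
      ∑ z, ((univ.filter fun g => P g z).card : ℝ) := by
    have e1 : ∀ g, ((univ.filter fun z => P g z).card : ℝ) = ∑ z, (if P g z then (1 : ℝ) else 0) :=
      fun g => by rw [Finset.card_filter]; push_cast; rfl
    have e2 : ∀ z, ((univ.filter fun g => P g z).card : ℝ) = ∑ g, (if P g z then (1 : ℝ) else 0) :=
      fun g => by rw [Finset.card_filter]; push_cast; rfl
    rw [Finset.sum_congr rfl fun g _ => e1 g, Finset.sum_congr rfl fun z _ => e2 z,
      Finset.sum_comm]
  rw [h1]
  calc ((K : ℝ) + 1) * B.card = ∑ _z ∈ B, ((K : ℝ) + 1) := by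
        rw [Finset.sum_const, nsmul_eq_mul, mul_comm]
    _ ≤ ∑ z ∈ B, ((univ.filter fun g => P g z).card : ℝ) := by
        refine Finset.sum_le_sum fun z hz => ?_
        exact_mod_cast hB z hz
    _ ≤ _ := Finset.sum_le_sum_of_subset_of_nonneg (Finset.subset_univ _)
        fun z _ _ => Nat.cast_nonneg _

theorem active_restrict (w : Fin N → ι → ℝ) (τ : ℝ) (t : Fin N) (z : Fin N → ι → Bool)
    (h : ¬ Active w τ t z) (u : ι → Bool) :
    (τ < form w (Function.update z t u)) ↔ (τ < form w (Function.update z t fun _ => false)) := by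
  unfold Active at h
  push Not at h
  constructor
  · intro h1
    exact h _ _ h1
  · intro h1
    exact h _ _ h1

theorem sum_bad [Nonempty ι] {G : Type*} [Fintype G] (w : G → Fin N → ι → ℝ) (τ : G → ℝ)
    (T : G → Finset (Fin N)) (hT : ∀ g i, i ∉ T g → ∀ j, w g i j = 0) (K : ℕ)
    (Bad : Fin N → Finset (Fin N → ι → Bool))
    (hBad : ∀ t, ∀ z ∈ Bad t, ∃ A : Finset G, K < A.card ∧ ∀ g ∈ A, Active (w g) (τ g) t z) :
    ∑ t, ((Bad t).card : ℝ) ≤ (Fintype.card ι + 1) * (2 * ∑ g, √(T g).card) / (K + 1) *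
      Fintype.card (Fin N → ι → Bool) := by
  classical
  have hK : (0 : ℝ) < (K : ℝ) + 1 := by positivity
  have h1 : (∑ t, ((Bad t).card : ℝ)) * ((K : ℝ) + 1) ≤
      (Fintype.card ι + 1) * (2 * ∑ g, √(T g).card) * Fintype.card (Fin N → ι → Bool) := by
    rw [mul_comm, Finset.mul_sum]
    calc ∑ t, ((K : ℝ) + 1) * ((Bad t).card : ℝ)
        ≤ ∑ t, ∑ g, ((univ.filter fun z => Active (w g) (τ g) t z).card : ℝ) := by
          refine Finset.sum_le_sum fun t _ => ?_
          refine markov_card (fun g z => Active (w g) (τ g) t z) K (Bad t) fun z hz => ?_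
          obtain ⟨A, hA, hA'⟩ := hBad t z hz
          refine lt_of_lt_of_le hA (Finset.card_le_card fun g hg => ?_)
          rw [Finset.mem_filter]
          exact ⟨Finset.mem_univ _, hA' g hg⟩
      _ = ∑ g, ∑ t, ((univ.filter fun z => Active (w g) (τ g) t z).card : ℝ) :=
          Finset.sum_comm
      _ ≤ ∑ g, (Fintype.card ι + 1) * (2 * √(T g).card) *
            Fintype.card (Fin N → ι → Bool) := by
          refine Finset.sum_le_sum fun g _ => ?_
          exact sum_active (w g) (τ g) (T g) (hT g) _ fun t z hz => (Finset.mem_filter.mp hz).2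
      _ = _ := by
          rw [← Finset.sum_mul, ← Finset.mul_sum, ← Finset.mul_sum]
  rw [div_mul_eq_mul_div, le_div_iff₀ hK]
  exact h1

theorem net_distinguish [Nonempty ι] (hN : 1 ≤ N) {G : Type*} [Fintype G]
    (w : G → Fin N → ι → ℝ) (τ c : G → ℝ) (ψ : Fin N → (ι → Bool) → ℝ) (θ : ℝ)
    (T : G → Finset (Fin N)) (hT : ∀ g i, i ∉ T g → ∀ j, w g i j = 0)
    (π : (ι → Bool) ≃ (ι → Bool)) {ε : ℝ} (hε : 0 ≤ ε) (hε1 : ε ≤ 1 / 2) (K : ℕ) :
    ∑ t, ∑ t' ∈ univ.erase t, ∑ z : Fin N → ι → Bool,
        (if netAns w τ c ψ θ (Function.update z t (π (z t'))) then (1 : ℝ) else 0) ≤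
      (N - 1) * (N * (∑ z : Fin N → ι → Bool, (if netAns w τ c ψ θ z then (1 : ℝ) else 0)) +
        (Fintype.card ι + 1) * (2 * ∑ g, √(T g).card) / (K + 1) *
          Fintype.card (Fin N → ι → Bool) +
        N * (ε + ((Fintype.card G + 1) ^ K * (2 ^ Fintype.card ι + 1) ^ (K + 1)) *
          Real.exp (-(ε ^ 2 * (N - 1)))) * Fintype.card (Fin N → ι → Bool)) := by
  classical
  have hN1 : (0 : ℝ) ≤ N - 1 := by
    have : ((1 : ℕ) : ℝ) ≤ N := by exact_mod_cast hN
    push_cast at this
    linarith
  obtain ⟨Bad, hBad⟩ : ∃ Bad : Fin N → Finset (Fin N → ι → Bool), ∀ t, Bad t =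
    univ.filter fun z => K < (univ.filter fun g => Active (w g) (τ g) t z).card :=
    ⟨_, fun _ => rfl⟩
  obtain ⟨𝒢, h𝒢⟩ : ∃ 𝒢 : Fin N → Finset ((ι → Bool) → Bool), ∀ t, 𝒢 t =
    univ.image (net (fun g u => ∑ j, (if u j then w g t j else 0)) c (ψ t) (K := K)) :=
    ⟨_, fun _ => rfl⟩
  have hcard : ∀ t, ((𝒢 t).card : ℝ) ≤
      (Fintype.card G + 1) ^ K * (2 ^ Fintype.card ι + 1) ^ (K + 1) := by
    intro t
    have h1 : (𝒢 t).card ≤ (Fintype.card G + 1) ^ K *
        (2 ^ Fintype.card ι + 1) ^ (K + 1) := by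
      rw [h𝒢]
      refine Finset.card_image_le.trans (le_of_eq ?_)
      rw [Finset.card_univ, Fintype.card_prod, Fintype.card_prod, Fintype.card_fun,
        Fintype.card_fun, Fintype.card_option, Fintype.card_fin, Fintype.card_fin,
        Fintype.card_fun, Fintype.card_bool, pow_succ]
    exact_mod_cast h1
  have hmem : ∀ t z, z ∉ Bad t →
      (fun u => netAns w τ c ψ θ (Function.update z t u)) ∈ 𝒢 t := by
    intro t z hz
    rw [hBad, Finset.mem_filter, not_and, not_lt] at hz
    have hA := hz (Finset.mem_univ _)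
    obtain ⟨A, hAdef⟩ : ∃ A, A = univ.filter fun g => Active (w g) (τ g) t z := ⟨_, rfl⟩
    rw [← hAdef] at hA
    obtain ⟨x, hx⟩ := exists_net (fun g u => ∑ j, (if u j then w g t j else 0)) c (ψ t) A hA
      (fun g => τ g - ∑ i ∈ univ.erase t, ∑ j, (if z i j then w g i j else 0))
      (θ - ∑ i ∈ univ.erase t, ψ i (z i) - ∑ g ∈ univ \ A,
        (if τ g < form (w g) (Function.update z t fun _ => false) then c g else 0))
    rw [h𝒢, Finset.mem_image]
    refine ⟨x, Finset.mem_univ _, ?_⟩
    funext u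
    rw [hx]
    unfold netAns
    have e1 : ∑ i, ψ i (Function.update z t u i) = ψ t u + ∑ i ∈ univ.erase t, ψ i (z i) := by
      rw [← Finset.add_sum_erase _ _ (Finset.mem_univ t), Function.update_self]
      congr 1
      refine Finset.sum_congr rfl fun i hi => ?_
      rw [Function.update_of_ne (Finset.ne_of_mem_erase hi)]
    have e2 : ∑ g, (if τ g < form (w g) (Function.update z t u) then c g else 0) =
        ∑ g ∈ univ \ A, (if τ g < form (w g) (Function.update z t fun _ => false) then c g
          else 0) + ∑ g ∈ A, (if τ g - ∑ i ∈ univ.erase t, ∑ j, (if z i j then w g i j else 0) <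
            ∑ j, (if u j then w g t j else 0) then c g else 0) := by
      rw [← Finset.sum_sdiff (Finset.subset_univ A)]
      congr 1
      · refine Finset.sum_congr rfl fun g hg => ?_
        rw [Finset.mem_sdiff, hAdef, Finset.mem_filter, not_and] at hg
        have := active_restrict (w g) (τ g) t z (hg.2 (Finset.mem_univ _)) u
        simp only [this]
      · refine Finset.sum_congr rfl fun g _ => ?_
        rw [form_update]
        have : (τ g < ∑ j, (if u j then w g t j else 0) +
            ∑ i ∈ univ.erase t, ∑ j, (if z i j then w g i j else 0)) ↔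
            (τ g - ∑ i ∈ univ.erase t, ∑ j, (if z i j then w g i j else 0) <
              ∑ j, (if u j then w g t j else 0)) := by
          constructor <;> intro h <;> linarith
        simp only [this]
    rw [e1, e2]
    have : (θ - ∑ i ∈ univ.erase t, ψ i (z i) - ∑ g ∈ univ \ A,
        (if τ g < form (w g) (Function.update z t fun _ => false) then c g else 0) <
        ψ t u + ∑ g ∈ A, (if τ g - ∑ i ∈ univ.erase t, ∑ j, (if z i j then w g i j else 0) <
            ∑ j, (if u j then w g t j else 0) then c g else 0)) ↔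
        (θ < ψ t u + ∑ i ∈ univ.erase t, ψ i (z i) + (∑ g ∈ univ \ A,
        (if τ g < form (w g) (Function.update z t fun _ => false) then c g else 0) +
        ∑ g ∈ A, (if τ g - ∑ i ∈ univ.erase t, ∑ j, (if z i j then w g i j else 0) <
            ∑ j, (if u j then w g t j else 0) then c g else 0))) := by
      constructor <;> intro h <;> linarith
    simp only [this]
  have h := distinguish hN (netAns w τ c ψ θ) π hε hε1 𝒢 _ hcard Bad hmem
  refine h.trans (mul_le_mul_of_nonneg_left ?_ hN1)
  have hbad := sum_bad w τ T hT K Bad fun t z hz => by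
    rw [hBad, Finset.mem_filter] at hz
    exact ⟨_, hz.2, fun g hg => (Finset.mem_filter.mp hg).2⟩
  linarith

end Pool.Agent.H1.HL
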