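import Pool.Agent.H1.HL.Final

/-!
# The choice of the parameters
-/

set_option autoImplicit false
set_option linter.unusedSectionVars false

namespace Pool.Agent.H1.HL

open Finset Pool.Agent.H1.LT

theorem pow_big (k : ℕ) (hk : 21 ≤ k) : 7168 * k + 7189 ≤ 2 ^ (k - 3) := by
  obtain ⟨d, rfl⟩ : ∃ d, k = 21 + d := ⟨k - 21, by omega⟩
  have e : 21 + d - 3 = 18 + d := by omega
  rw [e]
  induction d with
  | zero => norm_num
  | succ d ih =>
    have := ih (by omega) (by omega)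
    rw [show 18 + (d + 1) = 18 + d + 1 from rfl, pow_succ]
    omega

/-- The parameters. -/
structure Pars (m N R k K : ℕ) : Prop where
  hk : 21 ≤ k
  hN : N = 2 ^ (k - 3)
  h8 : 8 * N = 2 ^ k
  hR : 2 ^ k = 2 * R
  h1 : N + R ≤ m
  h2 : 2 * R ≤ m
  hm : m ≤ 16 * N
  hbig : 7168 * k + 7189 ≤ N
  hK : K = N / (1024 * k)

theorem pars (m : ℕ) (hm : 2 ^ 21 ≤ m) :
    Pars m (2 ^ (Nat.log 2 m - 3)) (2 ^ (Nat.log 2 m - 1)) (Nat.log 2 m)
      (2 ^ (Nat.log 2 m - 3) / (1024 * Nat.log 2 m)) := by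
  obtain ⟨k, hk⟩ : ∃ k, k = Nat.log 2 m := ⟨_, rfl⟩
  rw [← hk]
  have hk21 : 21 ≤ k := by
    rw [hk]
    exact (Nat.le_log_iff_pow_le (by norm_num) (by positivity)).mpr hm
  have h1 : 2 ^ k ≤ m := by
    rw [hk]
    exact Nat.pow_log_le_self 2 (by omega)
  have h2 : m < 2 ^ (k + 1) := by
    rw [hk]
    exact Nat.lt_pow_succ_log_self (by norm_num) m
  have e1 : 8 * 2 ^ (k - 3) = 2 ^ k := by
    obtain ⟨d, rfl⟩ : ∃ d, k = d + 3 := ⟨k - 3, by omega⟩
    rw [Nat.add_sub_cancel, pow_add]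
    ring
  have e2 : 2 ^ k = 2 * 2 ^ (k - 1) := by
    obtain ⟨d, rfl⟩ : ∃ d, k = d + 1 := ⟨k - 1, by omega⟩
    rw [Nat.add_sub_cancel, pow_succ]
    ring
  rw [pow_succ] at h2
  exact ⟨hk21, rfl, e1, e2, by omega, by omega, by omega, pow_big k hk21, rfl⟩

theorem two_le_exp : (2 : ℝ) ≤ Real.exp (7 / 10) := by
  have h := Real.log_two_lt_d9
  rw [← Real.log_le_iff_le_exp (by norm_num)]
  linarith

theorem two_pow_le_exp (n : ℕ) : (2 : ℝ) ^ n ≤ Real.exp (7 / 10 * n) := by
  have h : Real.exp (7 / 10 * n) = Real.exp (7 / 10) ^ n := by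
    rw [← Real.exp_nat_mul]
    congr 1
    ring
  rw [h]
  exact pow_le_pow_left₀ (by norm_num) two_le_exp n

/-- The number of codes is small. -/
theorem codes_small {m N R k K : ℕ} (h : Pars m N R k K) {C : ℝ}
    (hC : C ≤ 2 ^ ((4 * k + 1) * (K + 1))) :
    C * Real.exp (-((1 / 16) ^ 2 * (N - 1))) ≤ 1 / 32 := by
  have hk := h.hk
  have hkR : (21 : ℝ) ≤ k := by exact_mod_cast hk
  have hbig : 7168 * (k : ℝ) + 7189 ≤ N := by exact_mod_cast h.hbig
  have hK : (K : ℝ) + 1 ≤ N / (1024 * k) + 1 := by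
    rw [h.hK]
    have := Nat.cast_div_le (α := ℝ) (m := N) (n := 1024 * k)
    push_cast at this ⊢
    linarith
  have hexp : 7 / 10 * (((4 * k + 1) * (K + 1) : ℕ) : ℝ) + -((1 / 16) ^ 2 * ((N : ℝ) - 1)) ≤
      -(7 / 10 * (5 : ℕ)) := by
    push_cast
    have h1 : (4 * (k : ℝ) + 1) * (K + 1) ≤ 5 * k * (N / (1024 * k) + 1) := by
      refine mul_le_mul (by linarith) hK (by positivity) (by positivity)
    have h2 : 5 * (k : ℝ) * (N / (1024 * k) + 1) = 5 * N / 1024 + 5 * k := by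
      field_simp
    rw [h2] at h1
    linarith
  calc C * Real.exp (-((1 / 16) ^ 2 * (N - 1)))
      ≤ Real.exp (7 / 10 * (((4 * k + 1) * (K + 1) : ℕ) : ℝ)) *
        Real.exp (-((1 / 16) ^ 2 * (N - 1))) :=
        mul_le_mul_of_nonneg_right (hC.trans (two_pow_le_exp _)) (Real.exp_pos _).le
    _ = Real.exp (7 / 10 * (((4 * k + 1) * (K + 1) : ℕ) : ℝ) +
          -((1 / 16) ^ 2 * ((N : ℝ) - 1))) := by rw [Real.exp_add]
    _ ≤ Real.exp (-(7 / 10 * (5 : ℕ))) := Real.exp_le_exp.mpr hexp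
    _ ≤ 1 / 32 := by
        rw [Real.exp_neg, inv_eq_one_div]
        refine one_div_le_one_div_of_le (by norm_num) ?_
        have := two_pow_le_exp 5
        norm_num at this ⊢
        linarith

/-- **The hard family.** -/
theorem conclude (m : ℕ) (hm : 2 ^ 21 ≤ m) {N R k K : ℕ} (hP : Pars m N R k K) :
    ∃ (ι : Type) (_ : Fintype ι) (_ : Nonempty ι) (a b : ι → Fin m → ℕ),
      (∀ x, Simple (4 * m) (a x) (b x)) ∧
      ∀ (ans : (Fin m → ℕ) → (Fin m → ℕ) → Bool) (cost : ℝ), 0 ≤ cost →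
        (600000 * k ^ 2 * cost / m ^ 2 ≤ 2 / 5 → ∀ hk : 0 < k,
          ∑ t, ∑ t' ∈ univ.erase t, ∑ z : Fin N → Bits k → Bool,
          (if ans (ea m R fun i => pval (Function.update z t (flipE hk (z t')) i))
            (eb m R fun i => qval (Function.update z t (flipE hk (z t')) i)) then (1 : ℝ) else 0) ≤
          (N - 1) * (N * (∑ z : Fin N → Bits k → Bool,
          (if ans (ea m R fun i => pval (z i)) (eb m R fun i => qval (z i)) then (1 : ℝ) else 0)) +
          (2 * k + 1) * (2 * cost) / (K + 1) * Fintype.card (Fin N → Bits k → Bool) +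
          N * (1 / 16 + 1 / 32) * Fintype.card (Fin N → Bits k → Bool))) →
        (2 / 5 - 600000 * k ^ 2 * cost / m ^ 2) * Fintype.card ι ≤
          ({y | ¬ (ans (a y) (b y) = true ↔ HasTriangle (a y) (b y))} : Set ι).ncard := by
  have hk := hP.hk
  have hk0 : 0 < k := by omega
  have hbig := hP.hbig
  obtain ⟨ι, i1, i2, a, b, hs, hf⟩ := errors_lower hk0 (by omega : 2 ≤ N) hP.h8.le hP.hR hP.h1 hP.h2
  refine ⟨ι, i1, i2, a, b, hs, fun ans cost hcost hyp => ?_⟩
  by_cases hc : 600000 * k ^ 2 * cost / m ^ 2 ≤ 2 / 5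
  · have hNpos : (0 : ℝ) < N := by
      have : 0 < N := by omega
      exact_mod_cast this
    have hK0 : (0 : ℝ) < (K : ℝ) + 1 := by positivity
    have h1 := hf ans ((2 * k + 1) * (2 * cost) / ((K + 1) * N)) (by positivity) (by
      refine (hyp hc hk0).trans (le_of_eq ?_)
      congr 1
      have : (N : ℝ) * ((2 * k + 1) * (2 * cost) / ((K + 1) * N)) =
          (2 * k + 1) * (2 * cost) / (K + 1) := by
        field_simp
      rw [mul_add (N : ℝ) (3 / 32), this]
      ring)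
    refine le_trans (mul_le_mul_of_nonneg_right ?_ (Nat.cast_nonneg _)) h1
    have hkR : (21 : ℝ) ≤ k := by exact_mod_cast hk
    have hKl : (N : ℝ) / (1024 * k) ≤ K + 1 := by
      rw [hP.hK]
      have h := Nat.lt_div_mul_add (a := N) (b := 1024 * k) (by omega)
      have h' : (N : ℝ) < ((N / (1024 * k) : ℕ) : ℝ) * (1024 * k) + 1024 * k := by
        exact_mod_cast h
      rw [div_le_iff₀ (by positivity)]
      linarith
    have hmN : (m : ℝ) ≤ 16 * N := by exact_mod_cast hP.hm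
    have hmpos : (0 : ℝ) < m := by
      have : 0 < m := by
        have := Nat.pow_pos (n := 21) (show 0 < 2 by norm_num)
        omega
      exact_mod_cast this
    have h2 : (2 * (k : ℝ) + 1) * (2 * cost) / ((K + 1) * N) / 2 ≤
        600000 * k ^ 2 * cost / m ^ 2 := by
      have e1 : (2 * (k : ℝ) + 1) * (2 * cost) / ((K + 1) * N) / 2 =
          (2 * k + 1) * cost / ((K + 1) * N) := by ring
      rw [e1, div_le_div_iff₀ (by positivity) (by positivity)]
      have e2 : (m : ℝ) ^ 2 ≤ 256 * N ^ 2 := by nlinarith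
      have e3 : (N : ℝ) ≤ (K + 1) * (1024 * k) := by
        rwa [div_le_iff₀ (by positivity)] at hKl
      calc (2 * (k : ℝ) + 1) * cost * m ^ 2 ≤ (2 * (k : ℝ) + 1) * cost * (256 * N ^ 2) :=
            mul_le_mul_of_nonneg_left e2 (by positivity)
        _ = (2 * (k : ℝ) + 1) * cost * 256 * N * N := by ring
        _ ≤ (2 * (k : ℝ) + 1) * cost * 256 * N * ((K + 1) * (1024 * k)) :=
            mul_le_mul_of_nonneg_left e3 (by positivity)
        _ = (262144 * (2 * (k : ℝ) + 1) * k) * (cost * ((K + 1) * N)) := by ring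
        _ ≤ (600000 * k ^ 2) * (cost * ((K + 1) * N)) := by
            refine mul_le_mul_of_nonneg_right ?_ (by positivity)
            nlinarith
        _ = 600000 * k ^ 2 * cost * ((K + 1) * N) := by ring
    linarith
  · push Not at hc
    refine (mul_nonpos_of_nonpos_of_nonneg (by linarith) (Nat.cast_nonneg _)).trans
      (Nat.cast_nonneg _)

end Pool.Agent.H1.HL
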