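import Mathlib

/-!
# From a hard distribution to random algorithms
-/

set_option autoImplicit false

namespace Pool.Agent.H1.HL

open Finset MeasureTheory

/-- If each algorithm `A` errs on a fraction at least `c₀ - c₁ cost A` of a finite family, then a
random algorithm whose error probability is at most `η` on each member has average cost at least
`(c₀ - η) / c₁`. -/
theorem yao {𝒜 : Type*} {ι : Type*} [Fintype ι] [Nonempty ι] (err : 𝒜 → ι → Prop)
    (cost : 𝒜 → ℝ) (hcost : ∀ A, 0 ≤ cost A) (c₀ c₁ : ℝ) (hc₁ : 0 < c₁)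
    (h : ∀ A, (c₀ - c₁ * cost A) * Fintype.card ι ≤ ({x | err A x} : Set ι).ncard)
    {Ω : Type*} [MeasurableSpace Ω] (μ : Measure Ω) [IsProbabilityMeasure μ] (A : Ω → 𝒜)
    (η : ℝ) (hη : 0 ≤ η) (herr : ∀ x, μ {ω | err (A ω) x} ≤ ENNReal.ofReal η) :
    ENNReal.ofReal ((c₀ - η) / c₁) ≤ ∫⁻ ω, ENNReal.ofReal (cost (A ω)) ∂μ := by
  classical
  have hcι : (0 : ℝ) < Fintype.card ι := by exact_mod_cast Fintype.card_pos
  obtain ⟨E, hE⟩ : ∃ E : ι → Set Ω, ∀ x, E x = toMeasurable μ {ω | err (A ω) x} :=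
    ⟨_, fun _ => rfl⟩
  have hEm : ∀ x, MeasurableSet (E x) := fun x => by
    rw [hE]
    exact measurableSet_toMeasurable _ _
  have hEμ : ∀ x, μ (E x) ≤ ENNReal.ofReal η := fun x => by
    rw [hE, measure_toMeasurable]
    exact herr x
  have hpt : ∀ ω, ENNReal.ofReal (c₀ * Fintype.card ι) ≤
      (∑ x, (E x).indicator (fun _ => (1 : ENNReal)) ω) +
        ENNReal.ofReal (c₁ * Fintype.card ι) * ENNReal.ofReal (cost (A ω)) := by
    intro ω
    have h1 := h (A ω)
    have h2 : ((({x | err (A ω) x} : Set ι).ncard : ℕ) : ENNReal) ≤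
        ∑ x, (E x).indicator (fun _ => (1 : ENNReal)) ω := by
      rw [Set.ncard_eq_toFinset_card', Finset.card_eq_sum_ones]
      push_cast
      refine le_trans ?_ (Finset.sum_le_univ_sum_of_nonneg
        (s := ({x | err (A ω) x} : Set ι).toFinset) fun _ => zero_le)
      refine Finset.sum_le_sum fun x hx => ?_
      rw [Set.mem_toFinset] at hx
      rw [Set.indicator_of_mem]
      rw [hE]
      exact subset_toMeasurable _ _ hx
    refine le_trans ?_ (add_le_add_left h2 _)
    have h3 : (c₀ * (Fintype.card ι : ℝ)) ≤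
        (({x | err (A ω) x} : Set ι).ncard : ℕ) + c₁ * Fintype.card ι * cost (A ω) := by
      linarith
    refine (ENNReal.ofReal_le_ofReal h3).trans ?_
    rw [ENNReal.ofReal_add (Nat.cast_nonneg _)
        (mul_nonneg (mul_nonneg hc₁.le (Nat.cast_nonneg _)) (hcost _)),
      ENNReal.ofReal_natCast, ENNReal.ofReal_mul (mul_nonneg hc₁.le (Nat.cast_nonneg _))]
  have hint := lintegral_mono (μ := μ) hpt
  rw [lintegral_const, measure_univ, mul_one, lintegral_add_left, lintegral_finsetSum,
    lintegral_const_mul' _ _ ENNReal.ofReal_ne_top] at hint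
  rotate_left
  · intro x _
    exact measurable_one.indicator (hEm x)
  · exact Finset.measurable_sum _ fun x _ => measurable_one.indicator (hEm x)
  by_cases hI : ∫⁻ ω, ENNReal.ofReal (cost (A ω)) ∂μ = ⊤
  · rw [hI]
    simp
  · obtain ⟨I, hI'⟩ : ∃ I : ℝ, I = (∫⁻ ω, ENNReal.ofReal (cost (A ω)) ∂μ).toReal := ⟨_, rfl⟩
    have hI0 : 0 ≤ I := by rw [hI']; exact ENNReal.toReal_nonneg
    have hI2 : ∫⁻ ω, ENNReal.ofReal (cost (A ω)) ∂μ = ENNReal.ofReal I := by
      rw [hI', ENNReal.ofReal_toReal hI]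
    rw [hI2] at hint ⊢
    have h5 : ∑ x, ∫⁻ ω, (E x).indicator (fun _ => (1 : ENNReal)) ω ∂μ ≤
        ENNReal.ofReal (Fintype.card ι * η) := by
      calc ∑ x, ∫⁻ ω, (E x).indicator (fun _ => (1 : ENNReal)) ω ∂μ
          ≤ ∑ _x : ι, ENNReal.ofReal η := by
            refine Finset.sum_le_sum fun x _ => ?_
            rw [lintegral_indicator (hEm x), lintegral_const, Measure.restrict_apply_univ, one_mul]
            exact hEμ x
        _ = _ := by
            rw [Finset.sum_const, Finset.card_univ, nsmul_eq_mul,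
              ENNReal.ofReal_mul (Nat.cast_nonneg _), ENNReal.ofReal_natCast]
    have h6 : ENNReal.ofReal (c₀ * Fintype.card ι) ≤
        ENNReal.ofReal (Fintype.card ι * η + c₁ * Fintype.card ι * I) := by
      rw [ENNReal.ofReal_add (by positivity) (by positivity),
        ENNReal.ofReal_mul (p := c₁ * Fintype.card ι) (by positivity)]
      exact hint.trans (add_le_add_left h5 _)
    rw [ENNReal.ofReal_le_ofReal_iff (by positivity)] at h6
    refine ENNReal.ofReal_le_ofReal ?_
    rw [div_le_iff₀ hc₁]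
    have : c₀ * (Fintype.card ι : ℝ) ≤ (η + c₁ * I) * Fintype.card ι := by linarith
    have h7 := le_of_mul_le_mul_right this hcι
    linarith

end Pool.Agent.H1.HL
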